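import Pool.Agent.N511.LL.Stm
import Pool.Agent.H305R2.MertensE

/-!
# LJ/M: Mertens' theorem in the forms of `M0` (helper870)
-/

set_option autoImplicit false

namespace Pool.Agent.Run7.h870.LJ

open Finset Filter Topology Classical
open Pool.Agent.N511.LL

lemma mem_PP {y p : ℕ} : p ∈ PP y ↔ (3 ≤ p ∧ p ≤ y) ∧ p.Prime := by
  unfold PP
  rw [mem_filter, mem_Icc]

/-- `∏ (1 + 1/(p-1))` -/
noncomputable def Fu (y : ℕ) : ℝ := ∏ p ∈ PP y, (1 + 1 / ((p : ℝ) - 1))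

/-- `∏ (1 - 1/(p-1))` -/
noncomputable def Fd (y : ℕ) : ℝ := ∏ p ∈ PP y, (1 - 1 / ((p : ℝ) - 1))

/-- `∏ (1 - 1/(p-1)²)` -/
noncomputable def Fc (y : ℕ) : ℝ := ∏ p ∈ PP y, (1 - 1 / ((p : ℝ) - 1) ^ 2)

lemma u_bd {p : ℕ} (hp : 3 ≤ p) : 0 < 1 / ((p : ℝ) - 1) ∧ 1 / ((p : ℝ) - 1) ≤ 1 / 2 := by
  have h : (3:ℝ) ≤ p := by exact_mod_cast hp
  refine ⟨by apply div_pos one_pos; linarith, ?_⟩
  exact one_div_le_one_div_of_le (by norm_num) (by linarith)

lemma Fu_pos (y : ℕ) : 0 < Fu y := prod_pos fun p hp => by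
  have := (u_bd (mem_PP.1 hp).1.1).1
  linarith

lemma Fd_pos (y : ℕ) : 0 < Fd y := prod_pos fun p hp => by
  have := (u_bd (mem_PP.1 hp).1.1).2
  linarith

lemma Fd_mul_Fu (y : ℕ) : Fd y * Fu y = Fc y := by
  unfold Fd Fu Fc
  rw [← prod_mul_distrib]
  refine prod_congr rfl fun p hp => ?_
  have h3 : (3:ℝ) ≤ p := by exact_mod_cast (mem_PP.1 hp).1.1
  have h4 : (p:ℝ) - 1 ≠ 0 := by linarith
  field_simp
  ring

/-- lower bound of the product of all `n` -/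
lemma prod_all (y : ℕ) : ∏ n ∈ Icc 3 (y + 2), (1 - 1 / ((n : ℝ) - 1) ^ 2) = ((y:ℝ) + 2) / (2 * ((y:ℝ) + 1)) := by
  induction y with
  | zero => simp
  | succ y ih =>
    have h : Icc 3 (y + 1 + 2) = insert (y + 3) (Icc 3 (y + 2)) := by
      ext m; simp only [mem_Icc, mem_insert]; omega
    rw [h, prod_insert (by simp), ih]
    push_cast
    have h1 : (y:ℝ) + 1 ≠ 0 := by positivity
    have h2 : (y:ℝ) + 2 ≠ 0 := by positivity
    have h3 : ((y:ℝ) + 3 - 1) = y + 2 := by ring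
    rw [h3]
    have h4 : (y:ℝ) + 1 + 1 ≠ 0 := by positivity
    field_simp
    ring

lemma fac_mem {n : ℕ} (hn : 3 ≤ n) : 0 ≤ 1 - 1 / ((n : ℝ) - 1) ^ 2 ∧ 1 - 1 / ((n : ℝ) - 1) ^ 2 ≤ 1 := by
  have h := u_bd hn
  have e : 1 / ((n : ℝ) - 1) ^ 2 = (1 / ((n : ℝ) - 1)) ^ 2 := by rw [one_div_pow]
  rw [e]
  constructor
  · nlinarith [h.1, h.2]
  · nlinarith [sq_nonneg (1 / ((n : ℝ) - 1))]

lemma Fc_lb (y : ℕ) : 1 / 2 ≤ Fc y := by
  have h1 : ∏ n ∈ Icc 3 (y + 2), (1 - 1 / ((n : ℝ) - 1) ^ 2) ≤ Fc y := by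
    unfold Fc
    refine prod_le_prod_of_subset_of_le_one ?_ ?_ ?_
    · intro p hp
      have := mem_PP.1 hp
      exact mem_Icc.2 ⟨this.1.1, by omega⟩
    · intro n hn
      exact (fac_mem (mem_Icc.1 hn).1).1
    · intro n hn _
      exact (fac_mem (mem_Icc.1 hn).1).2
  rw [prod_all] at h1
  refine le_trans ?_ h1
  rw [div_le_div_iff₀ (by norm_num) (by positivity)]
  linarith

lemma Fc_anti : Antitone Fc := by
  intro a b hab
  unfold Fc
  refine prod_le_prod_of_subset_of_le_one ?_ ?_ ?_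
  · intro p hp
    have := mem_PP.1 hp
    exact mem_PP.2 ⟨⟨this.1.1, by omega⟩, this.2⟩
  · intro n hn
    exact (fac_mem (mem_PP.1 hn).1.1).1
  · intro n hn _
    exact (fac_mem (mem_PP.1 hn).1.1).2

lemma Fu_lim : Tendsto (fun y : ℕ => Fu y / Real.log y) atTop (𝓝 (eg / 2)) := by
  have h := Pool.Agent.H305R2.mertens_three
  have h2 := h.div_const 2
  refine h2.congr' ?_
  filter_upwards [eventually_ge_atTop 2] with y hy
  have e : (Icc 1 y).filter Nat.Prime = insert 2 (PP y) := by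
    ext p
    rw [mem_filter, mem_Icc, mem_insert, mem_PP]
    constructor
    · rintro ⟨⟨h1, h2⟩, h3⟩
      have := h3.two_le
      rcases Nat.eq_or_lt_of_le this with h | h
      · exact Or.inl h.symm
      · exact Or.inr ⟨⟨h, h2⟩, h3⟩
    · rintro (h | h)
      · subst h; exact ⟨⟨by omega, hy⟩, Nat.prime_two⟩
      · exact ⟨⟨by omega, h.1.2⟩, h.2⟩
  rw [e, prod_insert (by rw [mem_PP]; omega)]
  have e2 : ∏ p ∈ PP y, (1 - (p:ℝ)⁻¹)⁻¹ = Fu y := by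
    unfold Fu
    refine prod_congr rfl fun p hp => ?_
    have h3 : (3:ℝ) ≤ p := by exact_mod_cast (mem_PP.1 hp).1.1
    have h4 : (p:ℝ) - 1 ≠ 0 := by linarith
    have h5 : (p:ℝ) ≠ 0 := by linarith
    have h6 : 1 - (p:ℝ)⁻¹ = (p - 1) / p := by field_simp
    rw [h6, inv_div]
    field_simp
    ring
  rw [e2]
  norm_num
  ring

theorem m0 : M0 := by
  refine ⟨Fu_lim, ?_⟩
  have hbdd : BddBelow (Set.range Fc) := ⟨1 / 2, by rintro _ ⟨y, rfl⟩; exact Fc_lb y⟩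
  have hlim := tendsto_atTop_ciInf Fc_anti hbdd
  set C2 := ⨅ i, Fc i with hC2
  have hC2l : 1 / 2 ≤ C2 := le_ciInf Fc_lb
  refine ⟨C2, by linarith, hlim, ?_⟩
  have heg : eg / 2 ≠ 0 := by
    unfold eg
    positivity
  have h1 := hlim.div Fu_lim heg
  have e : C2 / (eg / 2) = 2 * C2 / eg := by
    have : eg ≠ 0 := by unfold eg; positivity
    field_simp
  rw [e] at h1
  refine h1.congr' ?_
  filter_upwards [eventually_ge_atTop 2] with y hy
  have hl : Real.log y ≠ 0 := (Real.log_pos (by exact_mod_cast hy)).ne'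
  have hF := (Fu_pos y).ne'
  show Fc y / (Fu y / Real.log y) = Real.log y * Fd y
  rw [← Fd_mul_Fu]
  field_simp

end Pool.Agent.Run7.h870.LJ
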