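import Pool.Agent.Run7.h870.LJ.G
import Pool.Agent.N511.LL.A0
import Pool.Agent.N511.LL.D0
import Pool.Agent.N511.LL.E0
import Pool.Agent.N511.LL.F1
import Pool.Agent.N511.LL.F2
import Pool.Agent.N511.LL.I0

/-!
# LJ/J: the limit law of the prime counts of `n² + a` (helper870)
-/

set_option autoImplicit false

namespace Pool.Agent.Run7.h870.LJ

open Finset Filter Topology Classical
open Pool.Agent.N511.LL

/-! ### the logarithmic integral -/

lemma li_bounds (x w τ L : ℝ) (hL : L = Real.log x) (hw2 : 2 ≤ w) (hwx : w ≤ x) (hτ0 : 0 < τ) (hτ : τ ≤ 1 / 2)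
    (hw : (1 - τ) * L ≤ Real.log w) :
    ∫ t in (2:ℝ)..x, 1 / Real.log t ≤ w / Real.log 2 + x / ((1 - τ) * L) ∧
      (x - 2) / L ≤ ∫ t in (2:ℝ)..x, 1 / Real.log t := by
  have h2x : 2 ≤ x := hw2.trans hwx
  have hL0 : 0 < L := by rw [hL]; exact Real.log_pos (by linarith)
  have hl2 : 0 < Real.log 2 := Real.log_pos (by norm_num)
  have hlog : ∀ t : ℝ, 2 ≤ t → Real.log 2 ≤ Real.log t := fun t ht => Real.log_le_log (by norm_num) ht
  have hcont : ContinuousOn (fun t : ℝ => 1 / Real.log t) (Set.Icc 2 x) := by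
    refine ContinuousOn.div continuousOn_const (ContinuousOn.log continuousOn_id fun t ht => ?_) fun t ht => ?_
    · have := ht.1; show t ≠ 0; linarith
    · have := hlog t ht.1; linarith
  have hII : ∀ a b : ℝ, 2 ≤ a → a ≤ b → b ≤ x →
      IntervalIntegrable (fun t : ℝ => 1 / Real.log t) MeasureTheory.volume a b := by
    intro a b ha hab hb
    refine (hcont.mono ?_).intervalIntegrable
    rw [Set.uIcc_of_le hab]
    exact Set.Icc_subset_Icc ha hb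
  constructor
  · rw [← intervalIntegral.integral_add_adjacent_intervals (hII 2 w le_rfl hw2 hwx) (hII w x hw2 hwx le_rfl)]
    have h1 : ∫ t in (2:ℝ)..w, 1 / Real.log t ≤ ∫ t in (2:ℝ)..w, 1 / Real.log 2 := by
      refine intervalIntegral.integral_mono_on hw2 (hII 2 w le_rfl hw2 hwx) intervalIntegrable_const
        fun t ht => ?_
      exact one_div_le_one_div_of_le hl2 (hlog t ht.1)
    have e3 : 0 < (1 - τ) * L := by
      apply mul_pos _ hL0; linarith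
    have h2 : ∫ t in w..x, 1 / Real.log t ≤ ∫ t in w..x, 1 / ((1 - τ) * L) := by
      refine intervalIntegral.integral_mono_on hwx (hII w x hw2 hwx le_rfl) intervalIntegrable_const
        fun t ht => ?_
      have e2 : Real.log w ≤ Real.log t := Real.log_le_log (by linarith) ht.1
      exact one_div_le_one_div_of_le e3 (by linarith)
    rw [intervalIntegral.integral_const, smul_eq_mul] at h1 h2
    have h3 : (x - w) * (1 / ((1 - τ) * L)) ≤ x / ((1 - τ) * L) := by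
      have : x / ((1 - τ) * L) = x * (1 / ((1 - τ) * L)) := by field_simp
      rw [this]
      exact mul_le_mul_of_nonneg_right (by linarith) (by positivity)
    have h4 : (w - 2) * (1 / Real.log 2) ≤ w / Real.log 2 := by
      have : w / Real.log 2 = w * (1 / Real.log 2) := by field_simp
      rw [this]
      exact mul_le_mul_of_nonneg_right (by linarith) (by positivity)
    linarith
  · have h2 : ∫ t in (2:ℝ)..x, 1 / L ≤ ∫ t in (2:ℝ)..x, 1 / Real.log t := by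
      refine intervalIntegral.integral_mono_on h2x intervalIntegrable_const (hII 2 x le_rfl h2x le_rfl)
        fun t ht => ?_
      have e1 := hlog t ht.1
      have e2 : Real.log t ≤ L := by rw [hL]; exact Real.log_le_log (by linarith [ht.1]) ht.2
      exact one_div_le_one_div_of_le (by linarith) e2
    rw [intervalIntegral.integral_const, smul_eq_mul, mul_one_div] at h2
    exact h2

/-- half of the logarithmic integral -/
noncomputable def hlf (N : ℕ) : ℝ := 1 / 2 * ∫ u in (2 : ℝ)..N, 1 / Real.log u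

lemma li_est (θ : ℝ) (hθ : 0 < θ) :
    ∃ N0 : ℕ, ∀ N : ℕ, N0 ≤ N → |hlf N - N / (2 * Real.log N)| ≤ θ * (N / (2 * Real.log N)) := by
  obtain ⟨τ, hτ0, hτ1, hτ2⟩ : ∃ τ : ℝ, 0 < τ ∧ τ ≤ 1 / 2 ∧ 4 * τ ≤ θ :=
    ⟨min (1 / 2) (θ / 4), by positivity, min_le_left _ _, by have := min_le_right (1 / 2) (θ / 4); linarith⟩
  have hl2 : 0 < Real.log 2 := Real.log_pos (by norm_num)
  have h1 := (isLittleO_log_rpow_atTop hτ0).def (show 0 < τ * Real.log 2 by positivity)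
  have h3 : Tendsto (fun N : ℕ => (N : ℝ)) atTop atTop := tendsto_natCast_atTop_atTop
  have h4 : ∀ᶠ x : ℝ in atTop, 2 ≤ x ^ (1 - τ) := (tendsto_rpow_atTop (by linarith)).eventually_ge_atTop 2
  have h5 : ∀ᶠ x : ℝ in atTop, 2 ≤ τ * x := (tendsto_id.const_mul_atTop hτ0).eventually_ge_atTop 2
  obtain ⟨N0, hN0⟩ := eventually_atTop.1 ((h3.eventually h1).and ((h3.eventually h4).and ((h3.eventually h5).and
    (eventually_ge_atTop 3))))
  refine ⟨N0, fun N hN => ?_⟩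
  obtain ⟨a1, a2, a3, a4⟩ := hN0 N hN
  set x : ℝ := (N:ℝ) with hx
  have hN3 : (3:ℝ) ≤ x := by rw [hx]; exact_mod_cast a4
  have hx0 : 0 < x := by linarith
  set L := Real.log x with hL
  have hL0 : 0 < L := Real.log_pos (by linarith)
  have hτx : 0 < x ^ τ := Real.rpow_pos_of_pos hx0 _
  rw [Real.norm_of_nonneg hL0.le, Real.norm_of_nonneg hτx.le] at a1
  set w := x ^ (1 - τ) with hw
  have hw0 : 0 < w := Real.rpow_pos_of_pos hx0 _
  have hwx : w * x ^ τ = x := by rw [hw, ← Real.rpow_add hx0]; simp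
  have hwn : w / Real.log 2 * L ≤ τ * x := by
    have e1 : w / Real.log 2 * L ≤ w / Real.log 2 * (τ * Real.log 2 * x ^ τ) :=
      mul_le_mul_of_nonneg_left a1 (by positivity)
    have e2 : w / Real.log 2 * (τ * Real.log 2 * x ^ τ) = τ * (w * x ^ τ) := by
      field_simp
    rw [e2, hwx] at e1
    exact e1
  have hwn' : w ≤ x := by
    calc w ≤ x ^ (1:ℝ) := Real.rpow_le_rpow_of_exponent_le (by linarith) (by linarith)
      _ = x := Real.rpow_one x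
  have hlw : (1 - τ) * L ≤ Real.log w := by rw [hw, Real.log_rpow hx0]
  obtain ⟨b1, b2⟩ := li_bounds x w τ L hL a2 hwn' hτ0 hτ1 hlw
  have hLI : hlf N = 1 / 2 * ∫ t in (2:ℝ)..x, 1 / Real.log t := rfl
  rw [hLI]
  set J := ∫ t in (2:ℝ)..x, 1 / Real.log t with hJ
  have c1 : w / Real.log 2 ≤ τ * (x / L) := by
    rw [mul_div_assoc', le_div_iff₀ hL0]; exact hwn
  have c2 : x / ((1 - τ) * L) ≤ (1 + 2 * τ) * (x / L) := by
    have e1 : 0 < 1 - τ := by linarith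
    rw [mul_div_assoc', div_le_div_iff₀ (by positivity) hL0]
    have e2 : 1 ≤ (1 + 2 * τ) * (1 - τ) := by nlinarith
    have e3 : x * 1 ≤ x * ((1 + 2 * τ) * (1 - τ)) := mul_le_mul_of_nonneg_left e2 hx0.le
    nlinarith
  have c3 : (1 - τ) * (x / L) ≤ (x - 2) / L := by
    rw [mul_div_assoc']
    refine div_le_div_of_nonneg_right ?_ hL0.le
    linarith
  have c4 : 4 * τ * (x / L) ≤ θ * (x / L) := mul_le_mul_of_nonneg_right hτ2 (by positivity)
  have c5 : 0 ≤ x / L := by positivity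
  have e5 : x / (2 * L) = 1 / 2 * (x / L) := by field_simp
  rw [e5, abs_le]
  constructor
  · nlinarith
  · nlinarith

/-! ### the counts in the progression `-4a` -/

lemma hprod_eq (a X : ℕ) : hprod a X = T (-4 * (a:ℤ)) X := by
  unfold hprod T loc
  refine prod_congr rfl fun p hp => ?_
  obtain ⟨⟨h3, h4⟩, h5⟩ := mem_PP.1 hp
  congr 3
  have e : (-4 * (a:ℤ)) = 2 ^ 2 * (-(a:ℤ)) := by ring
  rw [e, jacobiSym.mul_left]
  have h2 : jacobiSym ((2:ℤ) ^ 2) p = 1 := by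
    refine jacobiSym.sq_one' ?_
    rw [Int.gcd_comm]
    show Nat.gcd p 2 = 1
    exact (Nat.coprime_primes h5 Nat.prime_two).2 (by omega)
  rw [h2, one_mul]

/-- the transfer principle E0 for a progression -/
theorem transferG (hE : E0) {ρ : (Unit → ℝ) → (Unit → ℝ) → ℝ} (hρ : IsLaw (fun _ : Unit => (0:ℤ)) ρ)
    (ε : ℝ) (hε : 0 < ε) : ∃ η : ℝ, 0 < η ∧ ∃ y0 : ℕ, ∀ y : ℕ, y0 ≤ y → ∃ M0 : ℕ, ∀ M : ℕ, M0 ≤ M →
      ∀ (κ : ℕ) (b : ℤ), Nat.Coprime κ (Q y) → ∀ V : ℕ → ℝ, (∀ a, 0 ≤ V a) →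
      (#((range M).filter (fun i : ℕ => η * T (b + κ * i) y < |V i - T (b + κ * i) y|)) : ℝ) ≤ η * M →
      ∀ t : ℝ, |(#((range M).filter (fun i : ℕ => V i ≤ t)) : ℝ) - M * ρ (fun _ => -1) (fun _ => t)| ≤ ε * M := by
  obtain ⟨η, hη, y0, hy0⟩ := @hE Unit _ (fun _ => (0:ℤ)) ρ hρ ε hε
  refine ⟨η, hη, y0, fun y hy => ?_⟩
  obtain ⟨M0, hM0⟩ := hy0 y hy
  refine ⟨M0, fun M hM κ b hκ V hV hbad t => ?_⟩
  have h := hM0 M hM κ b (fun _ i => V i) (fun _ i => V i) hκ (fun _ => by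
    refine le_trans (le_of_eq ?_) hbad
    congr 2
    refine filter_congr fun i _ => ?_
    rw [add_zero, or_self]) (fun _ => -1) (fun _ => t)
  have hf : (range M).filter (fun i : ℕ => V i ≤ t) =
      (range M).filter (fun i : ℕ => ∀ _ : Unit, (-1:ℝ) < V i ∧ V i ≤ t) := by
    refine filter_congr fun i _ => ?_
    constructor
    · intro h1 _
      exact ⟨by linarith [hV i], h1⟩
    · intro h1
      exact (h1 ()).2
  rw [hf]
  exact h

/-- the reflection `a = M - i` -/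
lemma bij_full (M : ℕ) (p : ℕ → Prop) : #((Icc 1 M).filter p) = #((range M).filter (fun i => p (M - i))) := by
  refine card_nbij' (fun a => M - a) (fun i => M - i) ?_ ?_ ?_ ?_
  · intro a ha
    simp only [coe_filter, mem_Icc, mem_range, Set.mem_ofPred_eq] at ha ⊢
    refine ⟨by omega, ?_⟩
    rw [show M - (M - a) = a by omega]
    exact ha.2
  · intro i hi
    simp only [coe_filter, mem_Icc, mem_range, Set.mem_ofPred_eq] at hi ⊢
    exact ⟨by omega, hi.2⟩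
  · intro a ha
    simp only [coe_filter, mem_Icc, Set.mem_ofPred_eq] at ha
    show M - (M - a) = a
    omega
  · intro i hi
    simp only [coe_filter, mem_range, Set.mem_ofPred_eq] at hi
    show M - (M - i) = i
    omega

/-- the reflection `a = 2 (M - i) - 1`, `M = (A + 1) / 2`, of the odd numbers up to `A` -/
lemma bij_odd (A : ℕ) (p : ℕ → Prop) : #((Icc 1 A).filter (fun a => Odd a ∧ p a)) =
    #((range ((A + 1) / 2)).filter (fun i => p (2 * ((A + 1) / 2 - i) - 1))) := by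
  refine card_nbij' (fun a => (A + 1) / 2 - (a + 1) / 2) (fun i => 2 * ((A + 1) / 2 - i) - 1) ?_ ?_ ?_ ?_
  · intro a ha
    simp only [coe_filter, mem_Icc, mem_range, Set.mem_ofPred_eq] at ha ⊢
    obtain ⟨⟨h1, h2⟩, ⟨r, hr⟩, h4⟩ := ha
    refine ⟨by omega, ?_⟩
    rw [show 2 * ((A + 1) / 2 - ((A + 1) / 2 - (a + 1) / 2)) - 1 = a by omega]
    exact h4
  · intro i hi
    simp only [coe_filter, mem_Icc, mem_range, Set.mem_ofPred_eq] at hi ⊢
    exact ⟨by omega, ⟨(A + 1) / 2 - i - 1, by omega⟩, hi.2⟩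
  · intro a ha
    simp only [coe_filter, mem_Icc, Set.mem_ofPred_eq] at ha
    obtain ⟨⟨h1, h2⟩, ⟨r, hr⟩, h4⟩ := ha
    show 2 * ((A + 1) / 2 - ((A + 1) / 2 - (a + 1) / 2)) - 1 = a
    omega
  · intro i hi
    simp only [coe_filter, mem_range, Set.mem_ofPred_eq] at hi
    show (A + 1) / 2 - (2 * ((A + 1) / 2 - i) - 1 + 1) / 2 = i
    omega

/-- the transfer principle E0 for the progression `-4a`, `1 ≤ a ≤ M` -/
theorem transfer (hE : E0) {ρ : (Unit → ℝ) → (Unit → ℝ) → ℝ} (hρ : IsLaw (fun _ : Unit => (0:ℤ)) ρ)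
    (ε : ℝ) (hε : 0 < ε) : ∃ η : ℝ, 0 < η ∧ ∃ y0 : ℕ, ∀ y : ℕ, y0 ≤ y → ∃ M0 : ℕ, ∀ M : ℕ, M0 ≤ M →
      ∀ V : ℕ → ℝ, (∀ a, 0 ≤ V a) →
      (#((Icc 1 M).filter (fun a : ℕ => η * T (-4 * (a:ℤ)) y < |V a - T (-4 * (a:ℤ)) y|)) : ℝ) ≤ η * M →
      ∀ t : ℝ, |(#((Icc 1 M).filter (fun a : ℕ => V a ≤ t)) : ℝ) - M * ρ (fun _ => -1) (fun _ => t)| ≤ ε * M := by
  obtain ⟨η, hη, y0, hy0⟩ := transferG hE hρ ε hε
  refine ⟨η, hη, y0, fun y hy => ?_⟩
  obtain ⟨M0, hM0⟩ := hy0 y hy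
  refine ⟨M0, fun M hM V hV hbad t => ?_⟩
  have hd : ∀ i < M, (-4 * (M:ℤ)) + ((4:ℕ):ℤ) * (i:ℤ) = -4 * ((M - i : ℕ):ℤ) := by
    intro i hi
    have : ((M - i : ℕ):ℤ) = M - i := by omega
    rw [this]; push_cast; ring
  rw [bij_full]
  refine hM0 M hM 4 (-4 * (M:ℤ)) (KK.cop y 2) (fun i => V (M - i)) (fun i => hV _) ?_ t
  refine le_trans (le_of_eq ?_) hbad
  rw [bij_full]
  congr 2
  refine filter_congr fun i hi => ?_
  rw [mem_range] at hi
  rw [hd i hi]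

/-- the transfer principle E0 for the progression `1 - 4a`, `1 ≤ a ≤ A` odd -/
theorem transfer1 (hE : E0) {ρ : (Unit → ℝ) → (Unit → ℝ) → ℝ} (hρ : IsLaw (fun _ : Unit => (0:ℤ)) ρ)
    (ε : ℝ) (hε : 0 < ε) : ∃ η : ℝ, 0 < η ∧ ∃ y0 : ℕ, ∀ y : ℕ, y0 ≤ y → ∃ M0 : ℕ, ∀ A : ℕ, M0 ≤ A →
      ∀ V : ℕ → ℝ, (∀ a, 0 ≤ V a) →
      (#((Icc 1 A).filter (fun a : ℕ => Odd a ∧ η * T (1 - 4 * (a:ℤ)) y < |V a - T (1 - 4 * (a:ℤ)) y|)) : ℝ) ≤ η * A →
      ∀ t : ℝ, |(#((Icc 1 A).filter (fun a : ℕ => Odd a ∧ V a ≤ t)) : ℝ) -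
        ((A + 1) / 2 : ℕ) * ρ (fun _ => -1) (fun _ => t)| ≤ ε * ((A + 1) / 2 : ℕ) := by
  obtain ⟨η, hη, y0, hy0⟩ := transferG hE hρ ε hε
  refine ⟨η / 2, by linarith, y0, fun y hy => ?_⟩
  obtain ⟨M0, hM0⟩ := hy0 y hy
  refine ⟨2 * M0, fun A hA V hV hbad t => ?_⟩
  have hd : ∀ i < (A + 1) / 2, (1 - 4 * (2 * (((A + 1) / 2 : ℕ):ℤ) - 1)) + ((8:ℕ):ℤ) * (i:ℤ) =
      1 - 4 * ((2 * ((A + 1) / 2 - i) - 1 : ℕ):ℤ) := by
    intro i hi
    have : ((2 * ((A + 1) / 2 - i) - 1 : ℕ):ℤ) = 2 * (((A + 1) / 2 : ℕ) - i) - 1 := by omega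
    rw [this]; push_cast; ring
  rw [bij_odd]
  refine hM0 ((A + 1) / 2) (by omega) 8 (1 - 4 * (2 * (((A + 1) / 2 : ℕ):ℤ) - 1)) (KK.cop y 3)
    (fun i => V (2 * ((A + 1) / 2 - i) - 1)) (fun i => hV _) ?_ t
  have hA2 : (A:ℝ) ≤ 2 * ((A + 1) / 2 : ℕ) := by exact_mod_cast (by omega : A ≤ 2 * ((A + 1) / 2))
  have h5 : η / 2 * A ≤ η * ((A + 1) / 2 : ℕ) := by nlinarith
  refine le_trans ?_ (hbad.trans h5)
  rw [bij_odd, Nat.cast_le]
  refine card_le_card fun i hi => ?_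
  rw [mem_filter] at hi ⊢
  refine ⟨hi.1, ?_⟩
  have h6 := hi.2
  rw [hd i (mem_range.1 hi.1)] at h6
  have h7 := T_posj (1 - 4 * ((2 * ((A + 1) / 2 - i) - 1 : ℕ):ℤ)) y
  nlinarith

/-- the number of the `m ≤ N` with `m² + m + a` prime -/
def P1 (a N : ℕ) : ℕ := #((Icc 1 N).filter (fun m : ℕ => (m ^ 2 + m + a).Prime))

/-- the counts for `m² + a` -/
theorem counts0 (hE : E0) (hI : I0) {ρ : (Unit → ℝ) → (Unit → ℝ) → ℝ} (hρ : IsLaw (fun _ : Unit => (0:ℤ)) ρ)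
    (ε η : ℝ) (hε : 0 < ε) (hη : 0 < η) : ∃ N0 : ℕ, ∀ N : ℕ, N0 ≤ N → ∀ A : ℕ, (N : ℝ) ^ (5 / 6 + ε) ≤ A → A ≤ N →
      ∀ t : ℝ, |(#((Icc 1 A).filter (fun a : ℕ => (P a N : ℝ) ≤ t * (1 / 2 * ∫ u in (2 : ℝ)..N, 1 / Real.log u))) : ℝ) / A -
        ρ (fun _ => -1) (fun _ => t)| ≤ η := by
  obtain ⟨ηE, hηE, y1, hy1⟩ := transfer hE hρ η hη
  obtain ⟨ηL, hηL0, hηL1, hηL2⟩ : ∃ t : ℝ, 0 < t ∧ t ≤ 1 / 2 ∧ 4 * t ≤ ηE :=
    ⟨min (1 / 2) (ηE / 4), by positivity, min_le_left _ _, by have := min_le_right (1 / 2) (ηE / 4); linarith⟩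
  obtain ⟨ηI, hηI0, hηI1⟩ : ∃ t : ℝ, 0 < t ∧ 16 * t = ηE := ⟨ηE / 16, by positivity, by ring⟩
  obtain ⟨y2, hy2⟩ := hI 0 (Or.inl rfl) ε ηI hε hηI0
  set y := max y1 y2 with hy
  obtain ⟨M0, hM0⟩ := hy1 y (le_max_left _ _)
  obtain ⟨x0, hx0⟩ := hy2 y (le_max_right _ _)
  obtain ⟨N1, hN1⟩ := li_est ηL hηL0
  obtain ⟨N2, hN2⟩ := KK.pow_large ε hε (M0 + 1)
  refine ⟨x0 + N1 + N2 + 3, fun N hN A hA1 hA2 t => ?_⟩
  have hAbig := (hN2 N (by omega)).trans hA1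
  have hAM : M0 + 1 ≤ A := by exact_mod_cast hAbig
  have hNr : (3:ℝ) ≤ N := by exact_mod_cast (by omega : 3 ≤ N)
  have hL0 : 0 < Real.log N := Real.log_pos (by linarith)
  have hN0 : (0:ℝ) < N := by linarith
  obtain ⟨Ex, hEx1, hEx2, hEx3⟩ := hx0 N (by omega) A hA1 hA2
  have hli := hN1 N (by omega)
  have hlipos : 0 < hlf N := by
    have := (abs_le.1 hli).1
    have e1 : ηL * (N / (2 * Real.log N)) ≤ 1 / 2 * (N / (2 * Real.log N)) :=
      mul_le_mul_of_nonneg_right hηL1 (by positivity)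
    have e2 : 0 < (N:ℝ) / (2 * Real.log N) := by positivity
    linarith
  set V : ℕ → ℝ := fun a => (P a N : ℝ) / hlf N with hV
  have hV0 : ∀ a, 0 ≤ V a := fun a => by
    simp only [hV]
    positivity
  have hb := hM0 A (by omega) V hV0 (by
    have hEx4 : (#Ex : ℝ) ≤ ηE * A := by
      refine hEx2.trans (mul_le_mul_of_nonneg_right ?_ (Nat.cast_nonneg _))
      linarith
    refine le_trans ?_ hEx4
    rw [Nat.cast_le]
    refine card_le_card fun a ha => ?_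
    rw [mem_filter] at ha
    by_contra hcon
    have hh := (hEx3 a ha.1 hcon (fun h => by omega)).2 N le_rfl
    have e0 : (((0:ℕ):ℤ) ^ 2 - 4 * (a:ℤ)) = -4 * (a:ℤ) := by norm_num
    rw [e0] at hh
    set T0 := T (-4 * (a:ℤ)) y with hT0
    have hT0p : 0 < T0 := T_posj _ _
    have eP : (#((Icc 1 N).filter (fun m : ℕ => (m ^ 2 + 0 * m + a).Prime)) : ℝ) = P a N := by
      unfold P
      simp only [zero_mul, add_zero]
    rw [eP] at hh
    have hh1 : |(P a N : ℝ) - T0 * (N / (2 * Real.log N))| ≤ 2 * (ηI * (T0 * (2 * N / (2 * Real.log N)))) := by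
      have e4 : (1 + ((0:ℕ):ℝ)) * T0 * (N / (2 * Real.log N)) = T0 * (N / (2 * Real.log N)) := by
        push_cast; ring
      rw [e4] at hh
      refine hh.trans ?_
      have e5 : (2 * (N:ℝ) / (2 * Real.log N)) = N / Real.log N := by field_simp
      rw [e5]
      have : 0 ≤ ηI * (T0 * (N / Real.log N)) := by positivity
      linarith
    have hr := (KK.ratio_est (κ := 1) (ηI := ηI) (ηL := ηL) (ηE := ηE) hT0p hN0 (by positivity : 0 < 2 * Real.log N)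
      one_pos hηI0.le hηL0.le hηL1 (by linarith) (by linarith) hh1 hli).1
    exact absurd hr (not_le.2 ha.2)) t
  have hfil : (Icc 1 A).filter (fun a : ℕ => (P a N : ℝ) ≤ t * (1 / 2 * ∫ u in (2 : ℝ)..N, 1 / Real.log u)) =
      (Icc 1 A).filter (fun a : ℕ => V a ≤ t) := by
    refine filter_congr fun a _ => ?_
    simp only [hV]
    rw [div_le_iff₀ hlipos]
    rfl
  rw [hfil]
  set c : ℝ := (#((Icc 1 A).filter (fun a : ℕ => V a ≤ t)) : ℝ) with hc
  have hA0 : (0:ℝ) < A := by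
    have : 0 < A := by omega
    exact_mod_cast this
  have e3 : c / A - ρ (fun _ => -1) (fun _ => t) = (c - A * ρ (fun _ => -1) (fun _ => t)) / A := by field_simp
  rw [e3, abs_div, abs_of_pos hA0, div_le_iff₀ hA0]
  exact hb

/-- the counts for `m² + m + a`, `a` odd -/
theorem counts1 (hE : E0) (hI : I0) {ρ : (Unit → ℝ) → (Unit → ℝ) → ℝ} (hρ : IsLaw (fun _ : Unit => (0:ℤ)) ρ)
    (ε η : ℝ) (hε : 0 < ε) (hη : 0 < η) : ∃ N0 : ℕ, ∀ N : ℕ, N0 ≤ N → ∀ A : ℕ, (N : ℝ) ^ (5 / 6 + ε) ≤ A → A ≤ N →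
      ∀ t : ℝ, |(#((Icc 1 A).filter (fun a : ℕ => Odd a ∧ (P1 a N : ℝ) ≤ t * ∫ u in (2 : ℝ)..N, 1 / Real.log u)) : ℝ) /
        ((A + 1) / 2 : ℕ) - ρ (fun _ => -1) (fun _ => t)| ≤ η := by
  obtain ⟨ηE, hηE, y1, hy1⟩ := transfer1 hE hρ η hη
  obtain ⟨ηL, hηL0, hηL1, hηL2⟩ : ∃ t : ℝ, 0 < t ∧ t ≤ 1 / 2 ∧ 4 * t ≤ ηE :=
    ⟨min (1 / 2) (ηE / 4), by positivity, min_le_left _ _, by have := min_le_right (1 / 2) (ηE / 4); linarith⟩
  obtain ⟨ηI, hηI0, hηI1⟩ : ∃ t : ℝ, 0 < t ∧ 16 * t = ηE := ⟨ηE / 16, by positivity, by ring⟩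
  obtain ⟨y2, hy2⟩ := hI 1 (Or.inr rfl) ε ηI hε hηI0
  set y := max y1 y2 with hy
  obtain ⟨M0, hM0⟩ := hy1 y (le_max_left _ _)
  obtain ⟨x0, hx0⟩ := hy2 y (le_max_right _ _)
  obtain ⟨N1, hN1⟩ := li_est ηL hηL0
  obtain ⟨N2, hN2⟩ := KK.pow_large ε hε (M0 + 1)
  refine ⟨x0 + N1 + N2 + 3, fun N hN A hA1 hA2 t => ?_⟩
  have hAbig := (hN2 N (by omega)).trans hA1
  have hAM : M0 + 1 ≤ A := by exact_mod_cast hAbig
  have hNr : (3:ℝ) ≤ N := by exact_mod_cast (by omega : 3 ≤ N)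
  have hL0 : 0 < Real.log N := Real.log_pos (by linarith)
  have hN0 : (0:ℝ) < N := by linarith
  obtain ⟨Ex, hEx1, hEx2, hEx3⟩ := hx0 N (by omega) A hA1 hA2
  have hli0 := hN1 N (by omega)
  have hli : |2 * hlf N - N / Real.log N| ≤ ηL * (N / Real.log N) := by
    have e1 : 2 * hlf N - N / Real.log N = 2 * (hlf N - N / (2 * Real.log N)) := by field_simp
    have e2 : ηL * (N / Real.log N) = 2 * (ηL * (N / (2 * Real.log N))) := by field_simp
    rw [e1, e2, abs_mul, abs_of_pos (by norm_num : (0:ℝ) < 2)]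
    linarith
  have hlipos : 0 < 2 * hlf N := by
    have := (abs_le.1 hli).1
    have e1 : ηL * (N / Real.log N) ≤ 1 / 2 * (N / Real.log N) :=
      mul_le_mul_of_nonneg_right hηL1 (by positivity)
    have e2 : 0 < (N:ℝ) / Real.log N := by positivity
    linarith
  set V : ℕ → ℝ := fun a => (P1 a N : ℝ) / (2 * hlf N) with hV
  have hV0 : ∀ a, 0 ≤ V a := fun a => by
    simp only [hV]
    exact div_nonneg (Nat.cast_nonneg _) hlipos.le
  have hb := hM0 A (by omega) V hV0 (by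
    have hEx4 : (#Ex : ℝ) ≤ ηE * A := by
      refine hEx2.trans (mul_le_mul_of_nonneg_right ?_ (Nat.cast_nonneg _))
      linarith
    refine le_trans ?_ hEx4
    rw [Nat.cast_le]
    refine card_le_card fun a ha => ?_
    rw [mem_filter] at ha
    by_contra hcon
    have hh := (hEx3 a ha.1 hcon (fun _ => ha.2.1)).2 N le_rfl
    have e0 : (((1:ℕ):ℤ) ^ 2 - 4 * (a:ℤ)) = 1 - 4 * (a:ℤ) := by norm_num
    rw [e0] at hh
    set T0 := T (1 - 4 * (a:ℤ)) y with hT0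
    have hT0p : 0 < T0 := T_posj _ _
    have eP : (#((Icc 1 N).filter (fun m : ℕ => (m ^ 2 + 1 * m + a).Prime)) : ℝ) = P1 a N := by
      unfold P1
      simp only [one_mul]
    rw [eP] at hh
    have hh1 : |(P1 a N : ℝ) - T0 * (N / Real.log N)| ≤ 2 * (ηI * (T0 * (N / Real.log N))) := by
      have e4 : (1 + ((1:ℕ):ℝ)) * T0 * (N / (2 * Real.log N)) = T0 * (N / Real.log N) := by
        push_cast; field_simp; ring
      rw [e4] at hh
      refine hh.trans ?_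
      have : 0 ≤ ηI * (T0 * (N / Real.log N)) := by positivity
      linarith
    have hr := (KK.ratio_est (κ := 1) (ηI := ηI) (ηL := ηL) (ηE := ηE) hT0p hN0 hL0
      one_pos hηI0.le hηL0.le hηL1 (by linarith) (by linarith) hh1 hli).1
    exact absurd hr (not_le.2 ha.2.2)) t
  have hfil : (Icc 1 A).filter (fun a : ℕ => Odd a ∧ (P1 a N : ℝ) ≤ t * ∫ u in (2 : ℝ)..N, 1 / Real.log u) =
      (Icc 1 A).filter (fun a : ℕ => Odd a ∧ V a ≤ t) := by
    refine filter_congr fun a _ => ?_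
    simp only [hV]
    rw [div_le_iff₀ hlipos]
    have e : 2 * hlf N = ∫ u in (2 : ℝ)..N, 1 / Real.log u := by unfold hlf; ring
    rw [e]
  rw [hfil]
  set c : ℝ := (#((Icc 1 A).filter (fun a : ℕ => Odd a ∧ V a ≤ t)) : ℝ) with hc
  have hA0 : (0:ℝ) < ((A + 1) / 2 : ℕ) := by
    have : 0 < (A + 1) / 2 := by omega
    exact_mod_cast this
  have e3 : c / ((A + 1) / 2 : ℕ) - ρ (fun _ => -1) (fun _ => t) =
      (c - ((A + 1) / 2 : ℕ) * ρ (fun _ => -1) (fun _ => t)) / ((A + 1) / 2 : ℕ) := by field_simp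
  rw [e3, abs_div, abs_of_pos hA0, div_le_iff₀ hA0]
  exact hb

/-- the limit law: the statement `J0` with the second family added -/
def J1 : Prop := ∃ (G : ℝ → ℝ) (C2 : ℝ), Continuous G ∧ (∀ t ≤ 0, G t = 0) ∧ StrictMonoOn G (Set.Ici 0) ∧
    Tendsto G atTop (𝓝 1) ∧
    Tendsto (fun y : ℕ => ∏ p ∈ (Icc 3 y).filter Nat.Prime, (1 - 1 / ((p : ℝ) - 1) ^ 2)) atTop (𝓝 C2) ∧
    Tendsto (fun t : ℝ => Real.log (-Real.log (1 - G t)) / t) atTop
      (𝓝 (2 * Real.exp (-Real.eulerMascheroniConstant))) ∧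
    Tendsto (fun t : ℝ => Real.log (-Real.log (G (1 / t))) / t) atTop
      (𝓝 (2 * C2 * Real.exp (-Real.eulerMascheroniConstant))) ∧
    (∀ t : ℝ, Tendsto (fun X : ℕ => (#((Icc 1 X).filter (fun a : ℕ =>
      ∃ h : ℝ, Tendsto (hprod a) atTop (𝓝 h) ∧ h ≤ t)) : ℝ) / X) atTop (𝓝 (G t))) ∧
    ∀ ε η : ℝ, 0 < ε → 0 < η → ∃ N0 : ℕ, ∀ N : ℕ, N0 ≤ N → ∀ A : ℕ, (N : ℝ) ^ (5 / 6 + ε) ≤ A → A ≤ N → ∀ t : ℝ,
      |(#((Icc 1 A).filter (fun a : ℕ => (P a N : ℝ) ≤ t * (1 / 2 * ∫ u in (2 : ℝ)..N, 1 / Real.log u))) : ℝ) / A - G t|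
        ≤ η ∧
      |(#((Icc 1 A).filter (fun a : ℕ => Odd a ∧ (P1 a N : ℝ) ≤ t * ∫ u in (2 : ℝ)..N, 1 / Real.log u)) : ℝ) /
        ((A + 1) / 2 : ℕ) - G t| ≤ η

/-- **J1** -/
theorem j1 (hE : E0) (hI : I0) (hD : D0) (hG : G0) (hM : M0) (h1 : H1) (h2 : H2) (h3 : H3) (h4 : H4) : J1 := by
  obtain ⟨G, hIs, hcont, hzero, hstrict, htop, hlaw⟩ := hG
  obtain ⟨C2, hC2, hC2a, hC2b⟩ := hM.2
  obtain ⟨ρ, hρ⟩ := @hD Unit _ (fun _ => (0:ℤ))
  have hGρ := hlaw ρ hρ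
  have hlim : ∀ t, Tendsto (fun y => Gy y t) atTop (𝓝 (G t)) := by
    intro t
    rw [Metric.tendsto_atTop]
    intro e he
    obtain ⟨y0, hy0⟩ := hIs (e / 2) (by linarith)
    refine ⟨y0, fun y hy => ?_⟩
    rw [Real.dist_eq]
    have := hy0 y hy t
    linarith
  have heg : 0 < eg := Real.exp_pos _
  have tail : ∀ (A : ℝ) (g : ℝ → ℝ), (∀ δ : ℝ, 0 < δ → ∃ t0 : ℝ, ∀ t : ℝ, t0 ≤ t →
      Real.exp (-Real.exp ((A + δ) * t)) ≤ g t ∧ g t ≤ Real.exp (-Real.exp ((A - δ) * t))) →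
      Tendsto (fun t : ℝ => Real.log (-Real.log (g t)) / t) atTop (𝓝 A) := by
    intro A g hg
    rw [Metric.tendsto_atTop]
    intro e he
    obtain ⟨t0, ht0⟩ := hg (e / 2) (by linarith)
    refine ⟨max t0 1, fun t ht => ?_⟩
    obtain ⟨g1, g2⟩ := ht0 t (le_trans (le_max_left _ _) ht)
    have ht1 : 0 < t := lt_of_lt_of_le one_pos (le_trans (le_max_right _ _) ht)
    have hg0 : 0 < g t := lt_of_lt_of_le (Real.exp_pos _) g1
    have l1 : -Real.exp ((A + e / 2) * t) ≤ Real.log (g t) := (Real.le_log_iff_exp_le hg0).2 g1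
    have l2 : Real.log (g t) ≤ -Real.exp ((A - e / 2) * t) := (Real.log_le_iff_le_exp hg0).2 g2
    have hp : 0 < -Real.log (g t) := by
      have := Real.exp_pos ((A - e / 2) * t)
      linarith
    have l3 : Real.log (-Real.log (g t)) ≤ (A + e / 2) * t := (Real.log_le_iff_le_exp hp).2 (by linarith)
    have l4 : (A - e / 2) * t ≤ Real.log (-Real.log (g t)) := (Real.le_log_iff_exp_le hp).2 (by linarith)
    rw [Real.dist_eq, abs_lt]
    constructor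
    · have : A - e / 2 ≤ Real.log (-Real.log (g t)) / t := (le_div_iff₀ ht1).2 l4
      linarith
    · have : Real.log (-Real.log (g t)) / t ≤ A + e / 2 := (div_le_iff₀ ht1).2 l3
      linarith
  have e1 : 2 / eg = 2 * Real.exp (-Real.eulerMascheroniConstant) := by
    unfold eg; rw [Real.exp_neg]; ring
  have e2 : 2 * C2 / eg = 2 * C2 * Real.exp (-Real.eulerMascheroniConstant) := by
    unfold eg; rw [Real.exp_neg]; ring
  refine ⟨G, C2, hcont, hzero, hstrict, htop, hC2a, ?_, ?_, ?_, ?_⟩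
  · rw [← e1]
    refine tail _ _ fun δ hδ => ?_
    obtain ⟨ta, hta⟩ := h1 δ hδ
    obtain ⟨tb, htb⟩ := h2 δ hδ
    refine ⟨max ta tb, fun t ht => ⟨?_, ?_⟩⟩
    · obtain ⟨y0, hy0⟩ := hta t (le_trans (le_max_left _ _) ht)
      refine ge_of_tendsto ((hlim t).const_sub 1) ?_
      filter_upwards [eventually_ge_atTop y0] with y hy
      exact hy0 y hy
    · refine le_of_tendsto ((hlim t).const_sub 1) (Eventually.of_forall fun y => ?_)
      exact htb t (le_trans (le_max_right _ _) ht) y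
  · rw [← e2]
    refine tail _ (fun t => G (1 / t)) fun δ hδ => ?_
    obtain ⟨ta, hta⟩ := h3 C2 hC2 hC2b δ hδ
    obtain ⟨tb, htb⟩ := h4 C2 hC2 hC2b δ hδ
    refine ⟨max ta tb, fun t ht => ⟨?_, ?_⟩⟩
    · obtain ⟨y0, hy0⟩ := hta t (le_trans (le_max_left _ _) ht)
      refine ge_of_tendsto (hlim (1 / t)) ?_
      filter_upwards [eventually_ge_atTop y0] with y hy
      exact hy0 y hy
    · refine le_of_tendsto (hlim (1 / t)) (Eventually.of_forall fun y => ?_)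
      exact htb t (le_trans (le_max_right _ _) ht) y
  · -- the constants
    intro t
    rw [Metric.tendsto_atTop]
    intro e he
    obtain ⟨η, hη, y1, hy1⟩ := transfer hE hρ (e / 2) (by linarith)
    obtain ⟨y2, hy2⟩ := hI 0 (Or.inl rfl) (1 / 12) η (by norm_num) hη
    obtain ⟨M0, hM0⟩ := hy1 (max y1 y2) (le_max_left _ _)
    obtain ⟨x0, hx0⟩ := hy2 (max y1 y2) (le_max_right _ _)
    refine ⟨max (max M0 x0) 1, fun X hX => ?_⟩
    have hX1 : M0 ≤ X := (le_max_left _ _).trans ((le_max_left _ _).trans hX)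
    have hX2 : x0 ≤ X := (le_max_right _ _).trans ((le_max_left _ _).trans hX)
    have hX3 : 1 ≤ X := (le_max_right _ _).trans hX
    have hXr : (1:ℝ) ≤ X := by exact_mod_cast hX3
    have hpow : (X:ℝ) ^ ((5:ℝ) / 6 + 1 / 12) ≤ X := by
      calc (X:ℝ) ^ ((5:ℝ) / 6 + 1 / 12) ≤ (X:ℝ) ^ (1:ℝ) := Real.rpow_le_rpow_of_exponent_le hXr (by norm_num)
        _ = X := Real.rpow_one _
    obtain ⟨Ex, hEx1, hEx2, hEx3⟩ := hx0 X hX2 X hpow le_rfl
    set V : ℕ → ℝ := fun a => if h : ∃ h : ℝ, Tendsto (hprod a) atTop (𝓝 h) then max 0 h.choose else |t| + 1 with hV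
    have hV0 : ∀ a, 0 ≤ V a := by
      intro a
      simp only [hV]
      split_ifs
      · exact le_max_left _ _
      · positivity
    have hlimnn : ∀ a (h : ℝ), Tendsto (hprod a) atTop (𝓝 h) → 0 ≤ h := fun a h hh =>
      ge_of_tendsto' hh fun z => by rw [hprod_eq]; exact (T_posj _ _).le
    have hVlim : ∀ a (h : ℝ), Tendsto (hprod a) atTop (𝓝 h) → V a = h := by
      intro a h hh
      have hex : ∃ h : ℝ, Tendsto (hprod a) atTop (𝓝 h) := ⟨h, hh⟩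
      simp only [hV]
      rw [dif_pos hex, tendsto_nhds_unique hex.choose_spec hh, max_eq_right (hlimnn a h hh)]
    have hVt : ∀ a, V a ≤ t ↔ ∃ h : ℝ, Tendsto (hprod a) atTop (𝓝 h) ∧ h ≤ t := by
      intro a
      constructor
      · intro h
        by_cases hex : ∃ h : ℝ, Tendsto (hprod a) atTop (𝓝 h)
        · obtain ⟨h', hh'⟩ := hex
          rw [hVlim a h' hh'] at h
          exact ⟨h', hh', h⟩
        · exfalso
          simp only [hV] at h
          rw [dif_neg hex] at h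
          have := le_abs_self t
          linarith
      · rintro ⟨h, hh, hht⟩
        rw [hVlim a h hh]
        exact hht
    have hb := hM0 X hX1 V hV0 (by
      refine le_trans ?_ hEx2
      rw [Nat.cast_le]
      refine card_le_card fun a ha => ?_
      rw [mem_filter] at ha
      by_contra hcon
      obtain ⟨⟨h, hh1, hh2⟩, -⟩ := hEx3 a ha.1 hcon (fun h => by omega)
      have e0 : (((0:ℕ):ℤ) ^ 2 - 4 * (a:ℤ)) = -4 * (a:ℤ) := by norm_num
      rw [e0] at hh1 hh2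
      have hh3 : Tendsto (hprod a) atTop (𝓝 h) := hh1.congr fun z => (hprod_eq a z).symm
      rw [hVlim a h hh3] at ha
      exact absurd hh2 (not_le.2 ha.2)) t
    rw [← hGρ] at hb
    rw [Real.dist_eq]
    have hfil : (Icc 1 X).filter (fun a : ℕ => ∃ h : ℝ, Tendsto (hprod a) atTop (𝓝 h) ∧ h ≤ t) =
        (Icc 1 X).filter (fun a : ℕ => V a ≤ t) := filter_congr fun a _ => (hVt a).symm
    rw [hfil]
    set c : ℝ := (#((Icc 1 X).filter (fun a : ℕ => V a ≤ t)) : ℝ) with hc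
    have hX0 : (0:ℝ) < X := by linarith
    have e3 : c / X - G t = (c - X * G t) / X := by field_simp
    rw [e3, abs_div, abs_of_pos hX0, div_lt_iff₀ hX0]
    nlinarith
  · -- the counts
    intro ε η hε hη
    obtain ⟨N1, hN1⟩ := counts0 hE hI hρ ε η hε hη
    obtain ⟨N2, hN2⟩ := counts1 hE hI hρ ε η hε hη
    refine ⟨N1 + N2, fun N hN A hA1 hA2 t => ⟨?_, ?_⟩⟩
    · rw [hGρ t]
      exact hN1 N (by omega) A hA1 hA2 t
    · rw [hGρ t]
      exact hN2 N (by omega) A hA1 hA2 t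

theorem main : J1 :=
  j1 (e0 a0 c0) (i0 b2) (d0 a0 b2 c0) (g0 a0 (d0 a0 b2 c0) (f0 f1 f2 b2 c0) h2 h4 m0) m0 (h1 b2) h2 (h3 b2) h4

end Pool.Agent.Run7.h870.LJ
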