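import Pool.Agent.N511.LL.Stm

/-!
# LJ/CR: the product formula of the Chinese remainder theorem (helper870)
-/

set_option autoImplicit false

namespace Pool.Agent.Run7.h870.LJ

open Finset Filter Topology Classical
open Pool.Agent.N511.LL

theorem crt_sum (m k : ℕ) (h : m.Coprime k) (hm : 0 < m) (hk : 0 < k) (a b : ℕ → ℝ)
    (ha : ∀ x, a (x % m) = a x) (hb : ∀ x, b (x % k) = b x) :
    ∑ x ∈ range (m * k), a x * b x = (∑ x ∈ range m, a x) * ∑ x ∈ range k, b x := by
  rw [Finset.sum_mul_sum, ← Finset.sum_product']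
  refine Finset.sum_nbij' (fun x => (x % m, x % k)) (fun p => (Nat.chineseRemainder h p.1 p.2 : ℕ))
    ?_ ?_ ?_ ?_ ?_
  · intro x _
    rw [mem_product, mem_range, mem_range]
    exact ⟨Nat.mod_lt _ hm, Nat.mod_lt _ hk⟩
  · intro p _
    exact mem_range.2 (Nat.chineseRemainder_lt_mul h _ _ hm.ne' hk.ne')
  · intro x hx
    rw [mem_range] at hx
    have h1 := (Nat.chineseRemainder h (x % m) (x % k)).2
    have h2 : (Nat.chineseRemainder h (x % m) (x % k) : ℕ) ≡ x [MOD m * k] :=
      (Nat.modEq_and_modEq_iff_modEq_mul h).1 ⟨h1.1.trans (Nat.mod_modEq _ _),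
        h1.2.trans (Nat.mod_modEq _ _)⟩
    exact Nat.ModEq.eq_of_lt_of_lt h2 (Nat.chineseRemainder_lt_mul h _ _ hm.ne' hk.ne') hx
  · intro p hp
    rw [mem_product, mem_range, mem_range] at hp
    have h1 := (Nat.chineseRemainder h p.1 p.2).2
    refine Prod.ext ?_ ?_
    · have h2 := h1.1
      unfold Nat.ModEq at h2
      exact h2.trans (Nat.mod_eq_of_lt hp.1)
    · have h2 := h1.2
      unfold Nat.ModEq at h2
      exact h2.trans (Nat.mod_eq_of_lt hp.2)
  · intro x _
    show a x * b x = a (x % m) * b (x % k)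
    rw [ha, hb]

theorem jper (l : ℕ) (x N : ℕ) (h : l ∣ N) : jacobiSym ((x % N : ℕ) : ℤ) l = jacobiSym (x : ℤ) l := by
  rw [jacobiSym.mod_left ((x % N : ℕ) : ℤ), jacobiSym.mod_left (x : ℤ)]
  congr 1
  have h1 : ((x % N : ℕ) : ℤ) ≡ x [ZMOD l] := by
    have : (x % N) ≡ x [MOD l] := (Nat.mod_modEq x N).of_dvd h
    exact Int.natCast_modEq_iff.2 this
  exact h1

theorem cr0 : CR0 := by
  intro S
  induction S using Finset.induction_on with
  | empty => intro _ f; simp
  | insert l S hl ih =>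
    intro hS f
    have hl1 := hS l (mem_insert_self _ _)
    have hS1 : ∀ p ∈ S, p.Prime := fun p hp => hS p (mem_insert_of_mem hp)
    rw [prod_insert hl, prod_insert hl, ← ih hS1 f]
    have hc : l.Coprime (∏ l ∈ S, l) := by
      apply Nat.Coprime.prod_right
      intro a ha
      refine (Nat.coprime_primes hl1 (hS1 a ha)).2 ?_
      rintro rfl
      exact hl ha
    have h1 := crt_sum l (∏ l ∈ S, l) hc hl1.pos
      (Finset.prod_pos fun a ha => (hS1 a ha).pos)
      (fun x => f l (jacobiSym (x : ℤ) l))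
      (fun x => ∏ p ∈ S, f p (jacobiSym (x : ℤ) p))
      (fun x => by show f l (jacobiSym ((x % l : ℕ) : ℤ) l) = _; rw [jper l x l dvd_rfl])
      (fun x => prod_congr rfl fun a ha => by rw [jper a x _ (dvd_prod_of_mem _ ha)])
    rw [← h1]
    refine sum_congr rfl fun x _ => ?_
    rw [prod_insert hl]

end Pool.Agent.Run7.h870.LJ
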