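import Pool.Agent.Run7.h870.LJ.H
import Pool.Agent.N511.LL.K0

/-!
# LJ/G: the limit distribution function (helper870)
-/

set_option autoImplicit false

namespace Pool.Agent.Run7.h870.LJ

open Finset Filter Topology Classical
open Pool.Agent.N511.LL

lemma Gy_eq (y : ℕ) (t : ℝ) : Gy y t = Gb y (fun _ : Unit => (0:ℤ)) (fun _ => -1) (fun _ => t) := by
  unfold Gy Gb
  congr 3
  refine filter_congr fun d _ => ?_
  unfold InBox
  constructor
  · intro h _
    rw [add_zero]
    exact ⟨by linarith [T_posj (d:ℤ) y], h⟩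
  · intro h
    have := (h ()).2
    rwa [add_zero] at this

lemma Gy_mono (y : ℕ) : Monotone (Gy y) := by
  intro a b hab
  unfold Gy
  refine div_le_div_of_nonneg_right ?_ (Qr y).le
  rw [Nat.cast_le]
  refine card_le_card fun d hd => ?_
  rw [mem_filter] at hd ⊢
  exact ⟨hd.1, hd.2.trans hab⟩

lemma Gy_zero (y : ℕ) {t : ℝ} (ht : t ≤ 0) : Gy y t = 0 := by
  unfold Gy
  have : (range (Q y)).filter (fun d : ℕ => T d y ≤ t) = ∅ := by
    refine filter_eq_empty_iff.2 fun d _ h => ?_
    have := T_posj (d:ℤ) y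
    linarith
  rw [this]
  simp

lemma Gy_one (y : ℕ) (t : ℝ) : Gy y t ≤ 1 := by
  unfold Gy
  rw [div_le_one (Qr y), Nat.cast_le]
  exact (card_filter_le _ _).trans (card_range _).le

lemma Gy_diff (y : ℕ) {a b : ℝ} (hab : a ≤ b) :
    Gy y b - Gy y a = (#((range (Q y)).filter (fun d : ℕ => a < T d y ∧ T d y ≤ b)) : ℝ) / Q y := by
  unfold Gy
  rw [← sub_div]
  congr 1
  have h : (range (Q y)).filter (fun d : ℕ => T d y ≤ b) = (range (Q y)).filter (fun d : ℕ => T d y ≤ a) ∪
      (range (Q y)).filter (fun d : ℕ => a < T d y ∧ T d y ≤ b) := by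
    ext d
    simp only [mem_filter, mem_union]
    constructor
    · rintro ⟨h1, h2⟩
      by_cases h : T (d:ℤ) y ≤ a
      · exact Or.inl ⟨h1, h⟩
      · exact Or.inr ⟨h1, not_le.1 h, h2⟩
    · rintro (⟨h1, h2⟩ | ⟨h1, h2, h3⟩)
      · exact ⟨h1, h2.trans hab⟩
      · exact ⟨h1, h3⟩
  have hd : Disjoint ((range (Q y)).filter (fun d : ℕ => T d y ≤ a))
      ((range (Q y)).filter (fun d : ℕ => a < T d y ∧ T d y ≤ b)) := by
    rw [disjoint_filter]
    intro d _ h1 h2
    linarith [h2.1]
  rw [h, card_union_of_disjoint hd]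
  push_cast
  ring

theorem g0 (hA : A0) (hD : D0) (hF : F0) (h2 : H2) (h4 : H4) (hM : M0) : G0 := by
  obtain ⟨ρ, hρ⟩ := @hD Unit _ (fun _ => (0:ℤ))
  set G : ℝ → ℝ := fun t => ρ (fun _ => -1) (fun _ => t) with hG
  have hIs : IsG G := by
    intro ε hε
    obtain ⟨y0, hy0⟩ := hρ ε hε
    refine ⟨y0, fun y hy t => ?_⟩
    rw [Gy_eq]
    exact hy0 y hy _ _
  have hlim : ∀ t, Tendsto (fun y => Gy y t) atTop (𝓝 (G t)) := by
    intro t
    rw [Metric.tendsto_atTop]
    intro e he
    obtain ⟨y0, hy0⟩ := hIs (e / 2) (by linarith)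
    refine ⟨y0, fun y hy => ?_⟩
    rw [Real.dist_eq]
    have := hy0 y hy t
    linarith
  have hzero : ∀ t ≤ 0, G t = 0 := by
    intro t ht
    refine tendsto_nhds_unique (hlim t) ?_
    refine tendsto_const_nhds.congr fun y => ?_
    rw [Gy_zero y ht]
  have hmono : Monotone G := fun a b hab => le_of_tendsto_of_tendsto' (hlim a) (hlim b) fun y => Gy_mono y hab
  have hone : ∀ t, G t ≤ 1 := fun t => le_of_tendsto' (hlim t) fun y => Gy_one y t
  have hnn : ∀ t, 0 ≤ G t := fun t => by
    have h1 := hmono (min_le_left t 0)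
    rw [hzero _ (min_le_right t 0)] at h1
    exact h1
  have hstrict : StrictMonoOn G (Set.Ici 0) := by
    intro a ha b _ hab
    have ha0 : (0:ℝ) ≤ a := ha
    obtain ⟨c, hc, y0, hy0⟩ := @hF Unit _ (fun _ => (0:ℤ)) (fun _ _ _ => rfl) (fun _ => a) (fun _ => b) (fun _ => hab)
      (fun _ => lt_of_le_of_lt ha0 hab)
    have h1 : c ≤ G b - G a := by
      refine ge_of_tendsto ((hlim b).sub (hlim a)) ?_
      filter_upwards [eventually_ge_atTop y0] with y hy
      rw [Gy_diff y hab.le]
      refine (hy0 y hy).trans (le_of_eq ?_)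
      unfold Gb
      congr 3
      refine filter_congr fun d _ => ?_
      unfold InBox
      constructor
      · intro h
        have := h ()
        rwa [add_zero] at this
      · intro h _
        rw [add_zero]
        exact h
    linarith
  have heg : 0 < eg := Real.exp_pos _
  have htop : Tendsto G atTop (𝓝 1) := by
    obtain ⟨t0, ht0⟩ := h2 (1 / eg) (by positivity)
    have h5 : Tendsto (fun t : ℝ => 1 - Real.exp (-Real.exp ((2 / eg - 1 / eg) * t))) atTop (𝓝 (1 - 0)) := by
      refine Tendsto.const_sub 1 (Real.tendsto_exp_neg_atTop_nhds_zero.comp ?_)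
      refine exp_at ?_
      have : 2 / eg - 1 / eg = 1 / eg := by ring
      rw [this]; positivity
    rw [sub_zero] at h5
    refine tendsto_of_tendsto_of_tendsto_of_le_of_le' h5 tendsto_const_nhds ?_ (Eventually.of_forall hone)
    filter_upwards [eventually_ge_atTop t0] with t ht
    refine ge_of_tendsto (hlim t) (Eventually.of_forall fun y => ?_)
    have := ht0 t ht y
    linarith
  -- continuity
  have hcont0 : ∀ ε : ℝ, 0 < ε → ∃ δ : ℝ, 0 < δ ∧ ∀ t : ℝ, t < δ → G t ≤ ε := by
    intro ε hε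
    obtain ⟨C2, hC2, -, hC3⟩ := hM.2
    obtain ⟨t0, ht0⟩ := h4 C2 hC2 hC3 (C2 / eg) (by positivity)
    have h5 : Tendsto (fun t : ℝ => Real.exp (-Real.exp ((2 * C2 / eg - C2 / eg) * t))) atTop (𝓝 0) := by
      refine Real.tendsto_exp_neg_atTop_nhds_zero.comp (exp_at ?_)
      have : 2 * C2 / eg - C2 / eg = C2 / eg := by ring
      rw [this]; positivity
    obtain ⟨t1, ht1, ht2, ht3⟩ := ((h5.eventually (gt_mem_nhds hε)).and ((eventually_ge_atTop t0).and
      (eventually_gt_atTop (0:ℝ)))).exists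
    refine ⟨1 / t1, by positivity, fun t ht => ?_⟩
    refine (hmono ht.le).trans ?_
    refine le_of_tendsto (hlim _) (Eventually.of_forall fun y => ?_)
    exact (ht0 t1 ht2 y).trans ht1.le
  have hwin : ∀ ε : ℝ, 0 < ε → ∃ δ : ℝ, 0 < δ ∧ δ ≤ 1 ∧ ∀ t : ℝ, 0 < t → G (t * (1 + δ)) - G t ≤ ε := by
    intro ε hε
    obtain ⟨y0, δ, hδ0, hδ1, h⟩ := hA ε hε
    refine ⟨δ, hδ0, hδ1, fun t ht => ?_⟩
    refine le_of_tendsto ((hlim (t * (1 + δ))).sub (hlim t)) ?_
    filter_upwards [eventually_ge_atTop y0] with y hy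
    rw [Gy_diff y (by nlinarith), div_le_iff₀ (Qr y)]
    have h5 := h y hy 0 t ht
    simpa only [add_zero] using h5
  have hcont : Continuous G := by
    rw [Metric.continuous_iff]
    intro b ε hε
    rcases le_or_gt b 0 with hb | hb
    · obtain ⟨δ, hδ, h⟩ := hcont0 (ε / 2) (by linarith)
      refine ⟨δ, hδ, fun a ha => ?_⟩
      rw [Real.dist_eq] at ha ⊢
      rw [hzero b hb, sub_zero, abs_of_nonneg (hnn a)]
      have h1 := (abs_lt.1 ha).2
      have h3 := h a (by linarith)
      linarith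
    · obtain ⟨δ, hδ, hδ1, h⟩ := hwin (ε / 2) (by linarith)
      refine ⟨b * δ / 2, by positivity, fun a ha => ?_⟩
      rw [Real.dist_eq] at ha ⊢
      obtain ⟨h5, h6⟩ := abs_lt.1 ha
      have hbδ : 0 < b * δ := by positivity
      have hbδ1 : b * δ ≤ b := by nlinarith
      rcases le_total a b with hab | hab
      · have ha0 : 0 < a := by nlinarith
        have h7 := h a ha0
        have h8 : b ≤ a * (1 + δ) := by
          have : b * δ / 2 ≤ a * δ := by nlinarith
          nlinarith
        have h9 := hmono h8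
        have h10 := hmono hab
        rw [abs_of_nonpos (by linarith)]
        linarith
      · have h7 := h b hb
        have h8 : a ≤ b * (1 + δ) := by nlinarith
        have h9 := hmono h8
        have h10 := hmono hab
        rw [abs_of_nonneg (by linarith)]
        linarith
  refine ⟨G, hIs, hcont, hzero, hstrict, htop, ?_⟩
  intro ρ' hρ' t
  refine tendsto_nhds_unique (hlim t) ?_
  rw [Metric.tendsto_atTop]
  intro e he
  obtain ⟨y0, hy0⟩ := hρ' (e / 2) (by linarith)
  refine ⟨y0, fun y hy => ?_⟩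
  rw [Real.dist_eq, Gy_eq]
  have := hy0 y hy (fun _ => -1) (fun _ => t)
  linarith

end Pool.Agent.Run7.h870.LJ
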