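import Mathlib

/-!
# LJ/Real: real analysis for the tails (helper870)
-/

set_option autoImplicit false

namespace Pool.Agent.Run7.h870.LJ

open Filter Topology

lemma exp_at {a : ℝ} (ha : 0 < a) : Tendsto (fun t : ℝ => Real.exp (a * t)) atTop atTop :=
  Real.tendsto_exp_atTop.comp (tendsto_id.const_mul_atTop ha)

lemma log_floor {a : ℝ} (ha : 0 < a) (K : ℕ) (hK : 1 ≤ K) :
    Tendsto (fun t : ℝ => Real.log ((K * ⌊Real.exp (a * t)⌋₊ : ℕ) : ℝ) / t) atTop (𝓝 a) := by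
  have h1 : Tendsto (fun t : ℝ => (⌊Real.exp (a * t)⌋₊ : ℝ) / Real.exp (a * t)) atTop (𝓝 1) :=
    tendsto_nat_floor_div_atTop.comp (exp_at ha)
  have h2 : Tendsto (fun t : ℝ => Real.log ((⌊Real.exp (a * t)⌋₊ : ℝ) / Real.exp (a * t))) atTop (𝓝 0) := by
    have := h1.log one_ne_zero
    rwa [Real.log_one] at this
  have h3 : Tendsto (fun t : ℝ => (Real.log K + Real.log ((⌊Real.exp (a * t)⌋₊ : ℝ) / Real.exp (a * t))) / t + a)
      atTop (𝓝 (0 + a)) :=
    ((h2.const_add (Real.log K)).div_atTop tendsto_id).add_const a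
  rw [zero_add] at h3
  refine h3.congr' ?_
  filter_upwards [eventually_gt_atTop 0] with t ht
  have hK0 : (K:ℝ) ≠ 0 := by positivity
  have he : 1 ≤ Real.exp (a * t) := by
    rw [Real.one_le_exp_iff]; positivity
  have hf : 1 ≤ ⌊Real.exp (a * t)⌋₊ := Nat.le_floor (by exact_mod_cast he)
  have hf0 : ((⌊Real.exp (a * t)⌋₊ : ℕ) : ℝ) ≠ 0 := by
    have : ⌊Real.exp (a * t)⌋₊ ≠ 0 := by omega
    exact_mod_cast this
  push_cast
  rw [Real.log_mul hK0 hf0, Real.log_div hf0 (Real.exp_pos _).ne', Real.log_exp]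
  field_simp
  ring

lemma lim_F {a c : ℝ} (ha : 0 < a) (F : ℕ → ℝ) (hF : Tendsto (fun z : ℕ => F z / Real.log z) atTop (𝓝 c))
    (K : ℕ) (hK : 1 ≤ K) :
    Tendsto (fun t : ℝ => F (K * ⌊Real.exp (a * t)⌋₊) / t) atTop (𝓝 (c * a)) := by
  have h0 : Tendsto (fun t : ℝ => K * ⌊Real.exp (a * t)⌋₊) atTop atTop :=
    (tendsto_nat_floor_atTop.comp (exp_at ha)).const_mul_atTop' (by omega)
  have h1 := (hF.comp h0).mul (log_floor ha K hK)
  refine h1.congr' ?_
  filter_upwards [h0.eventually_ge_atTop 2, eventually_gt_atTop 0] with t h2 ht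
  simp only [Function.comp]
  have : Real.log ((K * ⌊Real.exp (a * t)⌋₊ : ℕ) : ℝ) ≠ 0 := (Real.log_pos (by exact_mod_cast h2)).ne'
  field_simp

theorem real_up {c : ℝ} (hc : 0 < c) (F : ℕ → ℝ) (hF : Tendsto (fun z : ℕ => F z / Real.log z) atTop (𝓝 c))
    (hF0 : ∀ z, 0 < F z) (P : ℕ → ℝ → ℝ)
    (hP : ∀ (y : ℕ) (t : ℝ), 0 < t → ∀ s K : ℕ, 1 ≤ s → 2 ≤ K → P y t ≤ (F (K * s) * Real.exp (5 / K) / t) ^ s)
    (δ : ℝ) (hδ : 0 < δ) :
    ∃ t0 : ℝ, ∀ t : ℝ, t0 ≤ t → ∀ y : ℕ, P y t ≤ Real.exp (-Real.exp ((1 / c - δ) * t)) := by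
  obtain ⟨δ', hδ'0, hδ'1, hδ'2⟩ : ∃ d : ℝ, 0 < d ∧ d ≤ δ ∧ d ≤ 1 / c :=
    ⟨min δ (1 / c), by positivity, min_le_left _ _, min_le_right _ _⟩
  set a := 1 / c - δ' / 2 with ha
  have ha0 : 0 < a := by rw [ha]; linarith
  have hca : c * a = 1 - c * δ' / 2 := by rw [ha]; field_simp
  have hca1 : c * a < 1 := by rw [hca]; nlinarith [mul_pos hc hδ'0]
  have hca0 : 0 < c * a := mul_pos hc ha0
  set r := (1 + c * a) / 2 with hr
  have hr1 : r < 1 := by rw [hr]; linarith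
  have hrc : c * a < r := by rw [hr]; linarith
  have hr0 : 0 < r := hca0.trans hrc
  -- the choice of `K`
  have hK : Tendsto (fun K : ℕ => c * a * Real.exp (5 / (K:ℝ))) atTop (𝓝 (c * a * Real.exp 0)) := by
    refine Tendsto.const_mul _ ((Real.continuous_exp.tendsto 0).comp ?_)
    exact tendsto_const_div_atTop_nhds_zero_nat 5
  rw [Real.exp_zero, mul_one] at hK
  obtain ⟨K, hK1, hK2⟩ := ((hK.eventually (gt_mem_nhds hrc)).and (eventually_ge_atTop 2)).exists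
  have hg : Tendsto (fun t : ℝ => F (K * ⌊Real.exp (a * t)⌋₊) * Real.exp (5 / K) / t) atTop
      (𝓝 (c * a * Real.exp (5 / K))) := by
    refine ((lim_F ha0 F hF K (by omega)).mul_const (Real.exp (5 / K))).congr fun t => ?_
    ring
  have hκ : 0 < -Real.log r := by
    have := Real.log_neg hr0 hr1
    linarith
  -- the last comparison
  have h5 : Tendsto (fun t : ℝ => Real.exp (δ' / 2 * t)) atTop atTop := exp_at (by linarith)
  obtain ⟨t0, ht0⟩ := eventually_atTop.1 ((hg.eventually (gt_mem_nhds hK1)).and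
    ((eventually_gt_atTop (0:ℝ)).and (((exp_at ha0).eventually_ge_atTop 2).and
    (h5.eventually_ge_atTop (2 / (-Real.log r))))))
  refine ⟨t0, fun t ht y => ?_⟩
  obtain ⟨b1, b2, b3, b4⟩ := ht0 t ht
  set s := ⌊Real.exp (a * t)⌋₊ with hs
  have hs1 : 1 ≤ s := Nat.le_floor (by push_cast; linarith)
  have hs2 : Real.exp (a * t) / 2 ≤ s := by
    have := Nat.sub_one_lt_floor (Real.exp (a * t))
    linarith
  refine (hP y t b2 s K hs1 hK2).trans ?_
  have hbase : 0 ≤ F (K * s) * Real.exp (5 / K) / t := by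
    have := hF0 (K * s)
    positivity
  refine (pow_le_pow_left₀ hbase b1.le s).trans ?_
  have e1 : r ^ s = Real.exp (-((s:ℝ) * -Real.log r)) := by
    rw [show -((s:ℝ) * -Real.log r) = s * Real.log r by ring, Real.exp_nat_mul, Real.exp_log hr0]
  rw [e1, Real.exp_le_exp, neg_le_neg_iff]
  have e2 : Real.exp ((1 / c - δ) * t) ≤ Real.exp ((1 / c - δ') * t) := by
    rw [Real.exp_le_exp]
    exact mul_le_mul_of_nonneg_right (by linarith) b2.le
  refine e2.trans ?_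
  have e3 : Real.exp (a * t) = Real.exp ((1 / c - δ') * t) * Real.exp (δ' / 2 * t) := by
    rw [← Real.exp_add]; congr 1; rw [ha]; ring
  have e4 : Real.exp ((1 / c - δ') * t) * (2 / (-Real.log r)) ≤ Real.exp (a * t) := by
    rw [e3]; exact mul_le_mul_of_nonneg_left b4 (Real.exp_pos _).le
  have hne : Real.log r ≠ 0 := by linarith
  calc Real.exp ((1 / c - δ') * t) = Real.exp ((1 / c - δ') * t) * (2 / (-Real.log r)) / 2 * (-Real.log r) := by
        field_simp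
    _ ≤ Real.exp (a * t) / 2 * (-Real.log r) := by
        gcongr
    _ ≤ s * (-Real.log r) := by
        gcongr

theorem real_low {c : ℝ} (hc : 0 < c) (F : ℕ → ℝ) (hF : Tendsto (fun z : ℕ => F z / Real.log z) atTop (𝓝 c))
    (δ : ℝ) (hδ : 0 < δ) :
    ∃ η : ℝ, 0 < η ∧ η ≤ 1 / 2 ∧ ∀ z0 : ℕ, ∃ t0 : ℝ, ∀ t : ℝ, t0 ≤ t → 0 < t ∧ ∃ z : ℕ, z0 ≤ z ∧
      t < (1 - η) * F z ∧ Real.exp (-Real.exp ((1 / c + δ) * t)) ≤ 1 / (2 * 4 ^ z) := by
  set a := 1 / c + δ / 2 with ha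
  have ha0 : 0 < a := by rw [ha]; positivity
  set x := c * δ / 2 with hx
  have hx0 : 0 < x := by rw [hx]; positivity
  have hca : c * a = 1 + x := by rw [ha, hx]; field_simp
  obtain ⟨η, hη0, hη1, hη2⟩ : ∃ η : ℝ, 0 < η ∧ η ≤ 1 / 2 ∧ η ≤ x / (2 * (1 + x)) :=
    ⟨min (1 / 2) (x / (2 * (1 + x))), by positivity, min_le_left _ _, min_le_right _ _⟩
  refine ⟨η, hη0, hη1, fun z0 => ?_⟩
  have h1 : Tendsto (fun t : ℝ => (1 - η) * (F (1 * ⌊Real.exp (a * t)⌋₊) / t)) atTop (𝓝 ((1 - η) * (1 + x))) := by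
    rw [← hca]
    exact (lim_F ha0 F hF 1 le_rfl).const_mul _
  have h2 : 1 < (1 - η) * (1 + x) := by
    have : η * (1 + x) ≤ x / 2 := by
      have e := mul_le_mul_of_nonneg_right hη2 (show 0 ≤ 1 + x by positivity)
      have e2 : x / (2 * (1 + x)) * (1 + x) = x / 2 := by field_simp
      linarith
    nlinarith
  have h3 : Tendsto (fun t : ℝ => ⌊Real.exp (a * t)⌋₊) atTop atTop := tendsto_nat_floor_atTop.comp (exp_at ha0)
  obtain ⟨t0, ht0⟩ := eventually_atTop.1 ((h1.eventually (lt_mem_nhds h2)).and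
    ((eventually_gt_atTop (0:ℝ)).and ((h3.eventually_ge_atTop z0).and
    ((exp_at (show 0 < δ / 2 by linarith)).eventually_ge_atTop 3))))
  refine ⟨t0, fun t ht => ?_⟩
  obtain ⟨b1, b2, b3, b4⟩ := ht0 t ht
  refine ⟨b2, ⌊Real.exp (a * t)⌋₊, b3, ?_, ?_⟩
  · rw [one_mul, mul_div_assoc', lt_div_iff₀ b2, one_mul] at b1
    exact b1
  · set z := ⌊Real.exp (a * t)⌋₊ with hz
    have hzl : (z:ℝ) ≤ Real.exp (a * t) := Nat.floor_le (Real.exp_pos _).le
    have e1 : (2:ℝ) * 4 ^ z ≤ Real.exp (1 + 2 * z) := by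
      have h20 : (2:ℝ) ≤ Real.exp 1 := by
        have := Real.add_one_le_exp (1:ℝ)
        linarith
      have h4 : (4:ℝ) ≤ Real.exp 2 := by
        have e : Real.exp 2 = Real.exp 1 * Real.exp 1 := by rw [← Real.exp_add]; norm_num
        rw [e]; nlinarith
      rw [Real.exp_add, mul_comm (2:ℝ) (z:ℝ), Real.exp_nat_mul]
      gcongr
    have e2 : 1 + 2 * (z:ℝ) ≤ Real.exp ((1 / c + δ) * t) := by
      have e3 : Real.exp ((1 / c + δ) * t) = Real.exp (a * t) * Real.exp (δ / 2 * t) := by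
        rw [← Real.exp_add]; congr 1; rw [ha]; ring
      rw [e3]
      have h6 : 1 ≤ Real.exp (a * t) := by rw [Real.one_le_exp_iff]; positivity
      nlinarith
    rw [Real.exp_neg, ← one_div]
    refine one_div_le_one_div_of_le (by positivity) (e1.trans ?_)
    rw [Real.exp_le_exp]
    exact e2

end Pool.Agent.Run7.h870.LJ
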