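import Pool.Agent.Run7.h870.LJ.Mom
import Pool.Agent.Run7.h870.LJ.Real
import Pool.Agent.N511.LL.C0
import Pool.Agent.N511.LL.F0

/-!
# LJ/H: the tails of the truncated product (helper870)
-/

set_option autoImplicit false

namespace Pool.Agent.Run7.h870.LJ

open Finset Filter Topology Classical
open Pool.Agent.N511.LL

lemma Qp (y : ℕ) : 0 < Q y := prod_pos fun p hp => (mem_PP.1 hp).2.pos

lemma Qr (y : ℕ) : (0:ℝ) < Q y := by exact_mod_cast Qp y

/-- the complementary count -/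
lemma compl_Gy (y : ℕ) (t : ℝ) : 1 - Gy y t = (#((range (Q y)).filter (fun d : ℕ => t < T d y)) : ℝ) / Q y := by
  have h := card_filter_add_card_filter_not (s := range (Q y)) (fun d : ℕ => T d y ≤ t)
  rw [card_range] at h
  have e : (range (Q y)).filter (fun d : ℕ => ¬ T d y ≤ t) = (range (Q y)).filter (fun d : ℕ => t < T d y) :=
    filter_congr fun d _ => not_le
  rw [e] at h
  have h' : (#((range (Q y)).filter (fun d : ℕ => T d y ≤ t)) : ℝ) +
    #((range (Q y)).filter (fun d : ℕ => t < T d y)) = Q y := by exact_mod_cast h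
  have hQ := (Qr y).ne'
  unfold Gy
  field_simp
  linarith

/-- Markov's inequality for a power -/
lemma markov {ι : Type} (S : Finset ι) (g : ι → ℝ) (hg : ∀ i ∈ S, 0 ≤ g i) (P : ι → Prop) {t A : ℝ} (ht : 0 < t) (s : ℕ)
    (hP : ∀ i ∈ S, P i → t ≤ g i) (hA : ∑ i ∈ S, (g i) ^ s ≤ A) : (#(S.filter P) : ℝ) ≤ A / t ^ s := by
  rw [le_div_iff₀ (by positivity)]
  refine le_trans ?_ hA
  rw [← nsmul_eq_mul, ← sum_const]
  refine (sum_le_sum fun i hi => ?_).trans (sum_le_sum_of_subset_of_nonneg (filter_subset P S) fun i hi _ =>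
    pow_nonneg (hg i hi) s)
  rw [mem_filter] at hi
  exact pow_le_pow_left₀ ht.le (hP i hi.1 hi.2) s

theorem h2 : H2 := by
  intro δ hδ
  have heg : 0 < eg := Real.exp_pos _
  have h := real_up (c := eg / 2) (by positivity) Fu Fu_lim Fu_pos (fun y t => 1 - Gy y t) ?_ δ hδ
  · rw [one_div_div] at h
    exact h
  · intro y t ht s K hs hK
    show 1 - Gy y t ≤ _
    rw [compl_Gy]
    have h1 := markov (range (Q y)) (fun d : ℕ => T (d:ℤ) y) (fun d _ => (T_posj _ _).le) (fun d : ℕ => t < T d y)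
      ht s (fun d _ h => h.le) (mom_up y s K hs hK)
    rw [div_le_iff₀ (Qr y)]
    refine (le_of_eq ?_).trans (h1.trans (le_of_eq ?_))
    · congr!
    · rw [div_pow]
      ring

theorem h4 : H4 := by
  intro C2 hC2 hlim δ hδ
  have heg : 0 < eg := Real.exp_pos _
  have hF : Tendsto (fun z : ℕ => (Fd z)⁻¹ / Real.log z) atTop (𝓝 (eg / (2 * C2))) := by
    have h1 := Tendsto.inv₀ hlim (by positivity : 2 * C2 / eg ≠ 0)
    rw [inv_div] at h1
    refine h1.congr fun z => ?_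
    show (Real.log z * Fd z)⁻¹ = _
    rw [mul_inv, div_eq_mul_inv, mul_comm]
  have h := real_up (c := eg / (2 * C2)) (by positivity) (fun z => (Fd z)⁻¹) hF (fun z => inv_pos.2 (Fd_pos z))
    (fun y t => Gy y (1 / t)) ?_ δ hδ
  · rw [one_div_div] at h
    exact h
  · intro y t ht s K hs hK
    show Gy y (1 / t) ≤ _
    unfold Gy
    have h1 := markov (range (Q y)) (fun d : ℕ => (T (d:ℤ) y)⁻¹) (fun d _ => (inv_pos.2 (T_posj _ _)).le)
      (fun d : ℕ => T d y ≤ 1 / t) ht s (fun d _ h => by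
        show t ≤ (T (d:ℤ) y)⁻¹
        rw [le_inv_comm₀ ht (T_posj _ _), ← one_div]
        exact h) (mom_down y s K hs hK)
    rw [div_le_iff₀ (Qr y)]
    refine (le_of_eq ?_).trans (h1.trans (le_of_eq ?_))
    · congr!
    · rw [div_pow]
      ring

/-- a residue class modulo `Q z` on which the truncated product is known -/
theorem low (hB : B2) {η : ℝ} (hη : 0 < η) (hη2 : η ≤ 1 / 2) : ∃ z0 : ℕ, 2 ≤ z0 ∧ ∀ z : ℕ, z0 ≤ z → ∀ y : ℕ, z ≤ y →
    ∀ d0 : ℕ, (1:ℝ) / (2 * Q z) ≤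
      (#((range (Q y)).filter (fun d : ℕ => |T (d:ℤ) y - T (d0:ℤ) z| ≤ η * T (d0:ℤ) z)) : ℝ) / Q y := by
  obtain ⟨z0, hz02, hz0⟩ := hB η hη
  refine ⟨z0, hz02, fun z hz y hy d0 => ?_⟩
  have hz2 : 2 ≤ z := hz02.trans hz
  obtain ⟨R, hR⟩ := F0aux.Q_dvd hy
  have hRpos : 0 < R := by
    rcases Nat.eq_zero_or_pos R with h | h
    · rw [h, mul_zero] at hR
      exact absurd hR (Qp y).ne'
    · exact h
  set L : ℕ := y ^ 3 with hL
  have hLpos : 0 < L := by
    have : 0 < y := by omega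
    positivity
  set M : ℕ := L * R with hM
  have hML : y ^ 3 ≤ M := Nat.le_mul_of_pos_right _ hRpos
  have hbad := hz0 z hz y hy M hML (Q z) d0 (Qp z)
  set c := T (d0:ℤ) z with hc
  have hc0 : 0 < c := T_posj _ _
  -- factorisation
  have hfac : ∀ i : ℕ, T ((d0 : ℤ) + Q z * i) y = c * ∏ p ∈ PR (Q z) z y, loc (d0 + Q z * i) p := by
    intro i
    rw [F0aux.PR_Q, hc]
    unfold T
    rw [F0aux.PP_split hz2 hy]
    congr 1
    refine Finset.prod_congr rfl fun p hp => F0aux.loc_congr ?_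
    have h3 : (p : ℤ) ∣ (Q z : ℤ) := Int.natCast_dvd_natCast.2 (Finset.dvd_prod_of_mem _ hp)
    have h4 : (p : ℤ) ∣ (Q z : ℤ) * i := h3.mul_right _
    exact (Int.emod_emod_of_dvd _ (dvd_refl _)).symm.trans (by
      rw [Int.add_emod, Int.emod_eq_zero_of_dvd h4]; simp)
  set F : ℤ → Prop := fun d => |T d y - c| ≤ η * c with hFdef
  have hFc : ∀ a b : ℤ, (a : ZMod (Q y)) = b → (F a ↔ F b) := by
    intro a b hab
    simp only [hFdef]
    rw [T_congr y hab]
  have hgood : ∀ i : ℕ, ¬ η < |∏ p ∈ PR (Q z) z y, loc (d0 + Q z * i) p - 1| → F ((d0 : ℤ) + Q z * i) := by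
    intro i hi
    push Not at hi
    simp only [hFdef]
    rw [hfac]
    have e : c * ∏ p ∈ PR (Q z) z y, loc (d0 + Q z * i) p - c = c * (∏ p ∈ PR (Q z) z y, loc (d0 + Q z * i) p - 1) := by
      ring
    rw [e, abs_mul, abs_of_pos hc0, mul_comm η]
    exact mul_le_mul_of_nonneg_left hi hc0.le
  have hcount : (M : ℝ) / 2 ≤ (#((range M).filter (fun i : ℕ => F ((d0 : ℤ) + Q z * i))) : ℝ) := by
    have c1 : range M ⊆ (range M).filter (fun i : ℕ => F ((d0 : ℤ) + Q z * i)) ∪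
        (range M).filter (fun i : ℕ => η < |∏ p ∈ PR (Q z) z y, loc (d0 + Q z * i) p - 1|) := by
      intro i hi
      rw [mem_union, mem_filter, mem_filter]
      by_cases h : η < |∏ p ∈ PR (Q z) z y, loc (d0 + Q z * i) p - 1|
      · exact Or.inr ⟨hi, h⟩
      · exact Or.inl ⟨hi, hgood i h⟩
    have c2 := (card_le_card c1).trans (card_union_le _ _)
    rw [card_range] at c2
    have c3 : (M:ℝ) ≤ #((range M).filter (fun i : ℕ => F ((d0 : ℤ) + Q z * i))) +
        #((range M).filter (fun i : ℕ => η < |∏ p ∈ PR (Q z) z y, loc (d0 + Q z * i) p - 1|)) := by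
      exact_mod_cast c2
    have c4 : η * M ≤ 1 / 2 * M := mul_le_mul_of_nonneg_right hη2 (Nat.cast_nonneg _)
    linarith
  -- the period
  have hper := card_blocks (n := Q y) (fun i => F ((d0:ℤ) + (1:ℕ) * i)) (fun i => hFc _ _ (by push_cast; simp)) L
  have hsh := card_shift (Qp y) F hFc 1 (d0:ℤ) (Nat.coprime_one_left _)
  have hinj : #((range M).filter (fun i : ℕ => F ((d0 : ℤ) + Q z * i))) ≤
      #((range (Q y * L)).filter (fun i : ℕ => F ((d0 : ℤ) + (1 : ℕ) * i))) := by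
    refine Finset.card_le_card_of_injOn (fun i => Q z * i) ?_ ?_
    · intro i hi
      rw [Finset.mem_coe, mem_filter, mem_range] at hi ⊢
      refine ⟨?_, ?_⟩
      · calc Q z * i < Q z * M := Nat.mul_lt_mul_of_pos_left hi.1 (Qp z)
          _ = Q y * L := by rw [hM, hR]; ring
      · have h7 := hi.2
        push_cast
        rw [one_mul]
        exact h7
    · intro a _ b _ hab
      exact Nat.eq_of_mul_eq_mul_left (Qp z) hab
  rw [hper, hsh] at hinj
  set N := #((range (Q y)).filter (fun i : ℕ => F i)) with hN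
  have h8 : (M : ℝ) / 2 ≤ (L:ℝ) * N := hcount.trans (by exact_mod_cast hinj)
  have hL0 : (0:ℝ) < L := by exact_mod_cast hLpos
  have h9 : (R:ℝ) / 2 ≤ N := by
    have e : (M:ℝ) / 2 = L * (R / 2) := by rw [hM]; push_cast; ring
    rw [e] at h8
    exact le_of_mul_le_mul_left h8 hL0
  have e2 : (Q y : ℝ) = Q z * R := by exact_mod_cast hR
  rw [div_le_div_iff₀ (by have := Qr z; positivity) (Qr y), e2]
  have h10 := mul_le_mul_of_nonneg_left h9 (Qr z).le
  show 1 * ((Q z:ℝ) * R) ≤ N * (2 * Q z)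
  linarith

/-- `Q z ≤ 4^z` -/
lemma Q_le (z : ℕ) : (Q z : ℝ) ≤ 4 ^ z := by
  have h : Q z ≤ primorial z := by
    unfold Q primorial
    refine prod_le_prod_of_subset_of_one_le' ?_ ?_
    · intro p hp
      have := mem_PP.1 hp
      rw [mem_filter, mem_range]
      exact ⟨by omega, this.2⟩
    · intro p hp _
      exact (mem_filter.1 hp).2.pos
  have h2 := h.trans (primorial_le_four_pow z)
  exact_mod_cast h2

theorem h1 (hB : B2) : H1 := by
  intro δ hδ
  have heg : 0 < eg := Real.exp_pos _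
  obtain ⟨η, hη0, hη1, hη2⟩ := real_low (c := eg / 2) (by positivity) Fu Fu_lim δ hδ
  rw [one_div_div] at hη2
  obtain ⟨z0, hz02, hz0⟩ := low hB hη0 hη1
  obtain ⟨t0, ht0⟩ := hη2 z0
  refine ⟨t0, fun t ht => ?_⟩
  obtain ⟨ht1, z, hz1, hz2, hz3⟩ := ht0 t ht
  refine ⟨z, fun y hy => ?_⟩
  -- a class of non-residues
  have hex : ∀ p : ℕ, ∃ d : ℤ, p.Prime → 3 ≤ p → jacobiSym d p = -1 := by
    intro p
    by_cases h : p.Prime ∧ 3 ≤ p
    · haveI : Fact p.Prime := ⟨h.1⟩
      obtain ⟨a, ha⟩ := quadraticChar_exists_neg_one (F := ZMod p) (by rw [ZMod.ringChar_zmod_n]; omega)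
      refine ⟨(a.val : ℤ), fun _ _ => ?_⟩
      rw [← jacobiSym.legendreSym.to_jacobiSym, legendreSym]
      push_cast
      rw [ZMod.natCast_zmod_val]
      exact ha
    · exact ⟨0, fun h1 h2 => absurd ⟨h1, h2⟩ h⟩
  choose dp hdp using hex
  obtain ⟨d0, hd0⟩ := F0aux.crt z dp
  have hT : T (d0:ℤ) z = Fu z := by
    unfold T Fu
    refine prod_congr rfl fun p hp => ?_
    obtain ⟨⟨h3, h4⟩, h5⟩ := mem_PP.1 hp
    rw [F0aux.loc_congr (hd0 p hp)]
    unfold loc
    rw [hdp p h5 h3]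
    push_cast
    ring
  have h := hz0 z hz1 y hy d0
  rw [hT] at h
  refine hz3.trans ?_
  have hQz : (1:ℝ) / (2 * 4 ^ z) ≤ 1 / (2 * Q z) := by
    refine one_div_le_one_div_of_le (by have := Qr z; positivity) ?_
    have := Q_le z
    linarith
  refine (hQz.trans h).trans ?_
  rw [compl_Gy]
  refine div_le_div_of_nonneg_right ?_ (Qr y).le
  rw [Nat.cast_le]
  refine card_le_card fun d hd => ?_
  rw [mem_filter] at hd ⊢
  refine ⟨hd.1, ?_⟩
  have := (abs_le.1 hd.2).1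
  linarith

theorem h3 (hB : B2) : H3 := by
  intro C2 hC2 hlim δ hδ
  have heg : 0 < eg := Real.exp_pos _
  have hF : Tendsto (fun z : ℕ => (Fd z)⁻¹ / Real.log z) atTop (𝓝 (eg / (2 * C2))) := by
    have h1 := Tendsto.inv₀ hlim (by positivity : 2 * C2 / eg ≠ 0)
    rw [inv_div] at h1
    refine h1.congr fun z => ?_
    show (Real.log z * Fd z)⁻¹ = _
    rw [mul_inv, div_eq_mul_inv, mul_comm]
  obtain ⟨η, hη0, hη1, hη2⟩ := real_low (c := eg / (2 * C2)) (by positivity) (fun z => (Fd z)⁻¹) hF δ hδ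
  rw [one_div_div] at hη2
  obtain ⟨z0, hz02, hz0⟩ := low hB hη0 hη1
  obtain ⟨t0, ht0⟩ := hη2 z0
  refine ⟨t0, fun t ht => ?_⟩
  obtain ⟨ht1, z, hz1, hz2, hz3⟩ := ht0 t ht
  refine ⟨z, fun y hy => ?_⟩
  have hT : T ((1:ℕ):ℤ) z = Fd z := by
    unfold T Fd
    refine prod_congr rfl fun p hp => ?_
    unfold loc
    rw [Nat.cast_one, jacobiSym.one_left]
    push_cast
    ring
  have h := hz0 z hz1 y hy 1
  rw [hT] at h
  refine hz3.trans ?_
  have hQz : (1:ℝ) / (2 * 4 ^ z) ≤ 1 / (2 * Q z) := by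
    refine one_div_le_one_div_of_le (by have := Qr z; positivity) ?_
    have := Q_le z
    linarith
  refine (hQz.trans h).trans ?_
  unfold Gy
  refine div_le_div_of_nonneg_right ?_ (Qr y).le
  rw [Nat.cast_le]
  refine card_le_card fun d hd => ?_
  rw [mem_filter] at hd ⊢
  refine ⟨hd.1, ?_⟩
  have h5 := (abs_le.1 hd.2).2
  have hFd := Fd_pos z
  have h6 : t * Fd z < 1 - η := by
    have := mul_lt_mul_of_pos_right hz2 hFd
    rw [mul_assoc, inv_mul_cancel₀ hFd.ne', mul_one] at this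
    exact this
  rw [le_div_iff₀ ht1]
  have h7 : T (d:ℤ) y ≤ (1 + η) * Fd z := by linarith
  have h8 : T (d:ℤ) y * t ≤ (1 + η) * Fd z * t := mul_le_mul_of_nonneg_right h7 ht1.le
  have h9 : (1 + η) * (t * Fd z) ≤ (1 + η) * (1 - η) := mul_le_mul_of_nonneg_left h6.le (by linarith)
  nlinarith

end Pool.Agent.Run7.h870.LJ
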