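import Pool.Agent.Run7.h870.LJ.M
import Pool.Agent.Run7.h870.LJ.CR
import Pool.Agent.N511.LL.B

/-!
# LJ/Mom: high moments of the truncated product (helper870)
-/

set_option autoImplicit false

namespace Pool.Agent.Run7.h870.LJ

open Finset Filter Topology Classical
open Pool.Agent.N511.LL

/-- the sum of the quadratic symbols over a period -/
lemma jac_sum {p : ℕ} (hp : p.Prime) (h2 : p ≠ 2) : ∑ r ∈ range p, (jacobiSym (r : ℤ) p : ℝ) = 0 := by
  have h := Baux.sum_period hp h2 (d := 1) (by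
    intro h
    have := Int.le_of_dvd (by norm_num) h
    have := hp.two_le
    omega) 0
  have h1 : ∑ r ∈ range p, jacobiSym (r : ℤ) p = 0 := by
    rw [← h]
    refine sum_congr rfl fun r _ => ?_
    congr 1
    ring
  exact_mod_cast h1

lemma jac_tri (d : ℤ) (p : ℕ) : (jacobiSym d p : ℝ) = 0 ∨ (jacobiSym d p : ℝ) = 1 ∨ (jacobiSym d p : ℝ) = -1 := by
  rcases jacobiSym.trichotomy d p with h | h | h <;> rw [h] <;> norm_num

/-- the exponential of `σ s u x` is below its chord -/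
lemma chord {x w : ℝ} (hx : x = 0 ∨ x = 1 ∨ x = -1) : Real.exp (w * x) ≤ Real.cosh w + x * Real.sinh w := by
  rcases hx with h | h | h <;> rw [h]
  · simp [Real.one_le_cosh]
  · rw [mul_one, one_mul, Real.cosh_add_sinh]
  · have : Real.cosh w + -1 * Real.sinh w = Real.exp (-w) := by
      rw [← Real.cosh_sub_sinh]; ring
    rw [this]
    apply le_of_eq; congr 1; ring

/-- the tail of the sum of `1/(n-1)²` -/
lemma tail_sum {W : ℕ} (hW : 2 ≤ W) (y : ℕ) : ∑ p ∈ (PP y).filter (fun p => W < p), (1 / ((p:ℝ) - 1)) ^ 2 ≤ 1 / ((W:ℝ) - 1) := by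
  have hW' : (2:ℝ) ≤ W := by exact_mod_cast hW
  have key : ∀ k : ℕ, ∑ n ∈ Ioc W (W + k), (1 / ((n:ℝ) - 1)) ^ 2 ≤ 1 / ((W:ℝ) - 1) - 1 / ((W:ℝ) + k - 1) := by
    intro k
    induction k with
    | zero => simp
    | succ k ih =>
      have hins : Ioc W (W + (k + 1)) = insert (W + k + 1) (Ioc W (W + k)) := by
        ext m; simp only [mem_Ioc, mem_insert]; omega
      rw [hins, sum_insert (by simp)]
      push_cast
      have hk : (0:ℝ) ≤ k := Nat.cast_nonneg k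
      have h1 : (0:ℝ) < (W:ℝ) + k - 1 := by linarith
      have h2 : (0:ℝ) < (W:ℝ) + k := by linarith
      have h3 : (1 / ((W:ℝ) + k + 1 - 1)) ^ 2 ≤ 1 / ((W:ℝ) + k - 1) - 1 / ((W:ℝ) + (k + 1) - 1) := by
        have e1 : (W:ℝ) + k + 1 - 1 = W + k := by ring
        have e2 : (W:ℝ) + (k + 1) - 1 = W + k := by ring
        rw [e1, e2]
        have e3 : 1 / ((W:ℝ) + k - 1) - 1 / ((W:ℝ) + k) = 1 / (((W:ℝ) + k - 1) * (W + k)) := by
          field_simp
          ring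
        rw [e3, one_div_pow]
        refine one_div_le_one_div_of_le (by positivity) ?_
        nlinarith
      linarith
  have hsub : (PP y).filter (fun p => W < p) ⊆ Ioc W (W + y) := by
    intro p hp
    rw [mem_filter, mem_PP] at hp
    exact mem_Ioc.2 ⟨hp.2, by omega⟩
  refine (sum_le_sum_of_subset_of_nonneg hsub fun n _ _ => by positivity).trans ?_
  refine (key y).trans ?_
  have : (0:ℝ) ≤ 1 / ((W:ℝ) + y - 1) := by
    have : (0:ℝ) ≤ y := Nat.cast_nonneg y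
    apply div_nonneg zero_le_one; linarith
  linarith

/-- the moment bound -/
theorem mom (f : ℕ → ℤ → ℝ) (B : ℕ → ℝ) (σ : ℝ) (hσ : σ = 1 ∨ σ = -1)
    (h0 : ∀ p : ℕ, 3 ≤ p → ∀ d : ℤ, 0 ≤ f p (jacobiSym d p))
    (h1 : ∀ p : ℕ, 3 ≤ p → ∀ d : ℤ, f p (jacobiSym d p) ≤ B p)
    (hB : ∀ p : ℕ, 3 ≤ p → 1 ≤ B p)
    (h2 : ∀ p : ℕ, 3 ≤ p → ∀ d : ℤ, f p (jacobiSym d p) ≤
      Real.exp (2 * (1 / ((p:ℝ) - 1)) ^ 2 + σ * (1 / ((p:ℝ) - 1)) * (jacobiSym d p : ℝ)))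
    (y s K : ℕ) (hs : 1 ≤ s) (hK : 2 ≤ K) :
    ∑ d ∈ range (Q y), (∏ p ∈ PP y, f p (jacobiSym (d : ℤ) p)) ^ s ≤
      Q y * ((∏ p ∈ PP (K * s), B p) * Real.exp (5 / K)) ^ s := by
  have hQ : Q y = ∏ p ∈ PP y, p := rfl
  have e1 : ∑ d ∈ range (Q y), (∏ p ∈ PP y, f p (jacobiSym (d : ℤ) p)) ^ s =
      ∏ p ∈ PP y, ∑ r ∈ range p, (f p (jacobiSym (r : ℤ) p)) ^ s := by
    rw [hQ, ← cr0 (PP y) (fun p hp => (mem_PP.1 hp).2) (fun p x => (f p x) ^ s)]
    refine sum_congr rfl fun d _ => ?_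
    rw [prod_pow]
  rw [e1]
  set m : ℕ → ℝ := fun p => if p ≤ K * s then (B p) ^ s else Real.exp ((2 * s + s ^ 2 / 2) * (1 / ((p:ℝ) - 1)) ^ 2)
    with hm
  have hloc : ∀ p ∈ PP y, ∑ r ∈ range p, (f p (jacobiSym (r : ℤ) p)) ^ s ≤ p * m p := by
    intro p hp
    obtain ⟨⟨h3, h4⟩, h5⟩ := mem_PP.1 hp
    by_cases hle : p ≤ K * s
    · have : m p = (B p) ^ s := by simp only [hm]; rw [if_pos hle]
      rw [this]
      have e9 : ∑ r ∈ range p, (f p (jacobiSym (r : ℤ) p)) ^ s ≤ ∑ r ∈ range p, (B p) ^ s :=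
        sum_le_sum fun r _ => pow_le_pow_left₀ (h0 p h3 r) (h1 p h3 r) s
      rw [sum_const, card_range, nsmul_eq_mul] at e9
      exact e9
    · have : m p = Real.exp ((2 * s + s ^ 2 / 2) * (1 / ((p:ℝ) - 1)) ^ 2) := by simp only [hm]; rw [if_neg hle]
      rw [this]
      set u : ℝ := 1 / ((p:ℝ) - 1) with hu
      have hterm : ∀ r ∈ range p, (f p (jacobiSym (r : ℤ) p)) ^ s ≤
          Real.exp (2 * s * u ^ 2) * (Real.cosh (s * (σ * u)) + (jacobiSym (r : ℤ) p : ℝ) * Real.sinh (s * (σ * u))) := by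
        intro r _
        refine (pow_le_pow_left₀ (h0 p h3 r) (h2 p h3 r) s).trans ?_
        rw [← Real.exp_nat_mul]
        have e : (s:ℝ) * (2 * u ^ 2 + σ * u * (jacobiSym (r : ℤ) p : ℝ)) = 2 * s * u ^ 2 +
            (s * (σ * u)) * (jacobiSym (r : ℤ) p : ℝ) := by ring
        rw [e, Real.exp_add]
        exact mul_le_mul_of_nonneg_left (chord (jac_tri _ _)) (Real.exp_pos _).le
      refine (sum_le_sum hterm).trans ?_
      rw [← mul_sum, sum_add_distrib, ← sum_mul, jac_sum h5 (by omega), zero_mul, add_zero, sum_const, card_range,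
        nsmul_eq_mul]
      have e2 : Real.cosh (s * (σ * u)) ≤ Real.exp ((s * (σ * u)) ^ 2 / 2) := Real.cosh_le_exp_half_sq _
      have e3 : ((s:ℝ) * (σ * u)) ^ 2 / 2 = s ^ 2 / 2 * u ^ 2 := by
        have : σ ^ 2 = 1 := by rcases hσ with h | h <;> rw [h] <;> norm_num
        calc ((s:ℝ) * (σ * u)) ^ 2 / 2 = s ^ 2 / 2 * u ^ 2 * σ ^ 2 := by ring
          _ = s ^ 2 / 2 * u ^ 2 := by rw [this, mul_one]
      rw [e3] at e2
      calc Real.exp (2 * s * u ^ 2) * ((p:ℝ) * Real.cosh (s * (σ * u)))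
          ≤ Real.exp (2 * s * u ^ 2) * ((p:ℝ) * Real.exp (s ^ 2 / 2 * u ^ 2)) := by
            gcongr
        _ = p * Real.exp ((2 * s + s ^ 2 / 2) * u ^ 2) := by
            rw [add_mul, Real.exp_add]; ring
  have e2 : ∏ p ∈ PP y, ∑ r ∈ range p, (f p (jacobiSym (r : ℤ) p)) ^ s ≤ ∏ p ∈ PP y, ((p:ℝ) * m p) :=
    prod_le_prod (fun p hp => sum_nonneg fun r _ => pow_nonneg (h0 p (mem_PP.1 hp).1.1 r) _) hloc
  refine e2.trans ?_
  rw [prod_mul_distrib, hQ]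
  push_cast
  refine mul_le_mul_of_nonneg_left ?_ (prod_nonneg fun p _ => Nat.cast_nonneg p)
  -- the product of the `m p`
  rw [← prod_filter_mul_prod_filter_not (PP y) (fun p => p ≤ K * s) m, mul_pow]
  have hW : 2 ≤ K * s := by nlinarith
  refine mul_le_mul ?_ ?_ ?_ ?_
  · have e3 : ∏ p ∈ (PP y).filter (fun p => p ≤ K * s), m p = (∏ p ∈ (PP y).filter (fun p => p ≤ K * s), B p) ^ s := by
      rw [← prod_pow]
      refine prod_congr rfl fun p hp => ?_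
      simp only [hm]
      rw [if_pos (mem_filter.1 hp).2]
    rw [e3]
    refine pow_le_pow_left₀ (prod_nonneg fun p hp => ?_) ?_ s
    · have := hB p (mem_PP.1 (mem_filter.1 hp).1).1.1
      linarith
    · refine prod_le_prod_of_subset_of_one_le ?_ ?_ ?_
      · intro p hp
        rw [mem_filter, mem_PP] at hp
        exact mem_PP.2 ⟨⟨hp.1.1.1, hp.2⟩, hp.1.2⟩
      · intro p hp
        have := hB p (mem_PP.1 (mem_filter.1 hp).1).1.1
        linarith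
      · intro p hp _
        exact hB p (mem_PP.1 hp).1.1
  · have e3 : ∏ p ∈ (PP y).filter (fun p => ¬ p ≤ K * s), m p =
        Real.exp (∑ p ∈ (PP y).filter (fun p => ¬ p ≤ K * s), (2 * s + s ^ 2 / 2) * (1 / ((p:ℝ) - 1)) ^ 2) := by
      rw [Real.exp_sum]
      refine prod_congr rfl fun p hp => ?_
      simp only [hm]
      rw [if_neg (mem_filter.1 hp).2]
    rw [e3, ← Real.exp_nat_mul, Real.exp_le_exp, ← mul_sum]
    have e4 : ∑ p ∈ (PP y).filter (fun p => ¬ p ≤ K * s), (1 / ((p:ℝ) - 1)) ^ 2 ≤ 1 / (((K * s : ℕ):ℝ) - 1) := by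
      have := tail_sum hW y
      refine le_trans (le_of_eq ?_) this
      refine sum_congr ?_ fun _ _ => rfl
      ext p
      simp only [mem_filter, not_le]
    have hs' : (1:ℝ) ≤ s := by exact_mod_cast hs
    have hK' : (2:ℝ) ≤ K := by exact_mod_cast hK
    calc (2 * (s:ℝ) + s ^ 2 / 2) * ∑ p ∈ (PP y).filter (fun p => ¬ p ≤ K * s), (1 / ((p:ℝ) - 1)) ^ 2
        ≤ (2 * (s:ℝ) + s ^ 2 / 2) * (1 / (((K * s : ℕ):ℝ) - 1)) := by
          apply mul_le_mul_of_nonneg_left e4; positivity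
      _ ≤ (s:ℝ) * (5 / (K:ℝ)) := by
          push_cast
          have h5 : 1 ≤ (K:ℝ) * s - 1 := by nlinarith
          have h6 : (K:ℝ) * s / 2 ≤ (K:ℝ) * s - 1 := by nlinarith
          have h7 : 1 / ((K:ℝ) * s - 1) ≤ 1 / ((K:ℝ) * s / 2) :=
            one_div_le_one_div_of_le (by positivity) h6
          have h8 : (2 * (s:ℝ) + s ^ 2 / 2) * (1 / ((K:ℝ) * s - 1)) ≤ (2 * (s:ℝ) + s ^ 2 / 2) * (1 / ((K:ℝ) * s / 2)) := by
            apply mul_le_mul_of_nonneg_left h7; positivity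
          refine h8.trans ?_
          have h9 : (2 * (s:ℝ) + s ^ 2 / 2) * (1 / ((K:ℝ) * s / 2)) = (4 + s) / K := by
            field_simp
            ring
          rw [h9, mul_div_assoc']
          refine div_le_div_of_nonneg_right ?_ (by positivity)
          linarith
  · exact prod_nonneg fun p hp => by
      simp only [hm]
      rw [if_neg (mem_filter.1 hp).2]
      positivity
  · apply pow_nonneg
    exact prod_nonneg fun p hp => by
      have := hB p (mem_PP.1 hp).1.1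
      linarith

/-- the product of the local factors -/
lemma loc_bd (d : ℤ) {p : ℕ} (hp : 3 ≤ p) : 0 < loc d p ∧ loc d p ≤ 1 + 1 / ((p:ℝ) - 1) ∧ 1 - 1 / ((p:ℝ) - 1) ≤ loc d p := by
  obtain ⟨h1, h2⟩ := u_bd hp
  have e : (jacobiSym d p : ℝ) / ((p:ℝ) - 1) = (jacobiSym d p : ℝ) * (1 / ((p:ℝ) - 1)) := by ring
  unfold loc
  rw [e]
  rcases jac_tri d p with h | h | h <;> rw [h] <;> refine ⟨?_, ?_, ?_⟩ <;> linarith

lemma T_posj (d : ℤ) (y : ℕ) : 0 < T d y := prod_pos fun p hp => (loc_bd d (mem_PP.1 hp).1.1).1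

/-- moments of `T` -/
theorem mom_up (y s K : ℕ) (hs : 1 ≤ s) (hK : 2 ≤ K) :
    ∑ d ∈ range (Q y), (T (d:ℤ) y) ^ s ≤ Q y * (Fu (K * s) * Real.exp (5 / K)) ^ s := by
  refine mom (fun p x => 1 - (x:ℝ) / ((p:ℝ) - 1)) (fun p => 1 + 1 / ((p:ℝ) - 1)) (-1) (Or.inr rfl) ?_ ?_ ?_ ?_ y s K hs hK
  · intro p hp d
    exact (loc_bd d hp).1.le
  · intro p hp d
    exact (loc_bd d hp).2.1
  · intro p hp
    have := (u_bd hp).1
    linarith
  · intro p hp d
    show 1 - (jacobiSym d p : ℝ) / ((p:ℝ) - 1) ≤ _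
    have h1 := Real.add_one_le_exp (-((jacobiSym d p : ℝ) / ((p:ℝ) - 1)))
    refine (le_trans (by linarith) h1).trans ?_
    rw [Real.exp_le_exp]
    have e : -((jacobiSym d p : ℝ) / ((p:ℝ) - 1)) = -1 * (1 / ((p:ℝ) - 1)) * (jacobiSym d p : ℝ) := by ring
    rw [e]
    have := sq_nonneg (1 / ((p:ℝ) - 1))
    linarith

lemma inv_exp {v : ℝ} (hv1 : -(1 / 2) ≤ v) (hv : v ≤ 1 / 2) : (1 - v)⁻¹ ≤ Real.exp (2 * v ^ 2 + v) := by
  have h1 : 0 < 1 - v := by linarith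
  have h2 := Real.one_sub_inv_le_log_of_pos h1
  have h3 : (1 - v)⁻¹ ≤ 1 + v + 2 * v ^ 2 := by
    rw [inv_le_iff_one_le_mul₀ h1]
    nlinarith [mul_nonneg (sq_nonneg v) (by linarith : 0 ≤ 1 - 2 * v)]
  have h4 := Real.add_one_le_exp (2 * v ^ 2 + v)
  linarith

/-- moments of `1/T` -/
theorem mom_down (y s K : ℕ) (hs : 1 ≤ s) (hK : 2 ≤ K) :
    ∑ d ∈ range (Q y), ((T (d:ℤ) y)⁻¹) ^ s ≤ Q y * ((Fd (K * s))⁻¹ * Real.exp (5 / K)) ^ s := by
  have h := mom (fun p x => (1 - (x:ℝ) / ((p:ℝ) - 1))⁻¹) (fun p => (1 - 1 / ((p:ℝ) - 1))⁻¹) 1 (Or.inl rfl) ?_ ?_ ?_ ?_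
    y s K hs hK
  · have e1 : ∏ p ∈ PP (K * s), (1 - 1 / ((p:ℝ) - 1))⁻¹ = (Fd (K * s))⁻¹ := by
      unfold Fd; rw [prod_inv_distrib]
    rw [e1] at h
    refine le_trans (le_of_eq ?_) h
    refine sum_congr rfl fun d _ => ?_
    unfold T loc
    rw [prod_inv_distrib]
  · intro p hp d
    exact (inv_pos.2 (loc_bd d hp).1).le
  · intro p hp d
    have h1 := (u_bd hp).2
    exact inv_anti₀ (by linarith) (loc_bd d hp).2.2
  · intro p hp
    obtain ⟨h1, h2⟩ := u_bd hp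
    rw [one_le_inv₀ (by linarith)]
    linarith
  · intro p hp d
    show (1 - (jacobiSym d p : ℝ) / ((p:ℝ) - 1))⁻¹ ≤ _
    obtain ⟨h1, h2⟩ := u_bd hp
    have e : (jacobiSym d p : ℝ) / ((p:ℝ) - 1) = (jacobiSym d p : ℝ) * (1 / ((p:ℝ) - 1)) := by ring
    rw [e]
    set u := 1 / ((p:ℝ) - 1)
    have h3 : (1 - (jacobiSym d p : ℝ) * u)⁻¹ ≤ Real.exp (2 * ((jacobiSym d p : ℝ) * u) ^ 2 + (jacobiSym d p : ℝ) * u) := by
      apply inv_exp <;> rcases jac_tri d p with h | h | h <;> rw [h] <;> linarith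
    refine h3.trans ?_
    rw [Real.exp_le_exp]
    have h4 : ((jacobiSym d p : ℝ) * u) ^ 2 ≤ u ^ 2 := by
      rcases jac_tri d p with h | h | h <;> rw [h] <;> nlinarith
    linarith

end Pool.Agent.Run7.h870.LJ
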